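import Mathlib

namespace Pool.Agent.Helper947.Zar

/-- Nagata's pseudo-geometric rings: Noetherian rings `R` such that, for every prime ideal `p` and
every finite field extension `L` of the fraction field of `R ⧸ p`, the integral closure of
`R ⧸ p` in `L` is a finite `R ⧸ p`-module. -/
def IsPseudoGeometric (R : Type) [CommRing R] : Prop :=
  IsNoetherianRing R ∧ ∀ (p : Ideal R) [p.IsPrime] (L : Type) [Field L] [Algebra (R ⧸ p) L]
    [Algebra (FractionRing (R ⧸ p)) L] [IsScalarTower (R ⧸ p) (FractionRing (R ⧸ p)) L]
    [FiniteDimensional (FractionRing (R ⧸ p)) L], Module.Finite (R ⧸ p) (integralClosure (R ⧸ p) L)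

/-- Pairs `{o, R}` satisfying (A), (B), (C), where the inclusion `R ⊆ o` is the structure map. -/
structure IsPair (R o : Type) [CommRing R] [CommRing o] [Algebra R o] : Prop where
  noetherian : IsNoetherianRing o
  semilocal : Finite (MaximalSpectrum o)
  reduced : IsReduced o
  regular : IsRegularLocalRing R
  domain : IsDomain R
  charZero : Nonempty (ℚ →+* R)
  injective : Function.Injective (algebraMap R o)
  finite : Module.Finite R o
  /-- the fraction field of `R` is contained in the total ring of quotients of `o` -/
  nonZeroDivisor : ∀ r : R, r ≠ 0 → algebraMap R o r ∈ nonZeroDivisors o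
  pseudoGeometric : IsPseudoGeometric R

section
variable (R o : Type) [CommRing R] [IsDomain R] [CommRing o] [Algebra R o]

/-- An algebraic closure `Ω` of the fraction field `K` of `R`. -/
abbrev Om : Type := AlgebraicClosure (FractionRing R)

/-- The compositum `F*` in `Ω` of the images of the total ring of quotients `F` of `o` under all
`R`-algebra (equivalently, `K`-algebra) homomorphisms `F → Ω`. -/
noncomputable def Fstar : IntermediateField (FractionRing R) (Om R) :=
  IntermediateField.adjoin (FractionRing R) {z | ∃ ψ : FractionRing o →ₐ[R] Om R, z ∈ Set.range ψ}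

/-- `o*`: the integral closure of `R` in `F*`. -/
def ostar : Set (Om R) := {z | z ∈ Fstar R o ∧ IsIntegral R z}

/-- `η` dominates `ζ` with respect to `K`. -/
def Dominates (η ζ : FractionRing o) : Prop :=
  ∀ ψ φ : FractionRing o →ₐ[R] Om R,
    (ψ ζ = φ ζ → ψ η = φ η) ∧ (ψ ζ ≠ φ ζ → (ψ η - φ η) / (ψ ζ - φ ζ) ∈ ostar R o)

/-- A ring `S` between `o` and its integral closure in the total ring of quotients is saturated
if every element `η` of that integral closure which dominates some `ζ ∈ S` lies in `S`. -/
def IsSat (S : Subring (FractionRing o)) : Prop :=
  ∀ η ζ : FractionRing o, IsIntegral o η → ζ ∈ S → Dominates R o η ζ → η ∈ S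

/-- `o` itself as a subring of its total ring of quotients -/
noncomputable def self : Subring (FractionRing o) := (algebraMap o (FractionRing o)).range

/-- The saturation of `o` with respect to `K`: the smallest saturated ring between `o` and its
integral closure in the total ring of quotients. -/
noncomputable def saturation : Subring (FractionRing o) :=
  sInf {S | self o ≤ S ∧ S ≤ (integralClosure o (FractionRing o)).toSubring ∧ IsSat R o S}

end

/-- `B` is the completion of the (semi-local) ring `A` at its Jacobson radical. -/
def IsCompletion (A B : Type) [CommRing A] [CommRing B] [Algebra A B] : Prop :=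
  Nonempty (AdicCompletion (Ring.jacobson A) A ≃ₐ[A] B)

end Pool.Agent.Helper947.Zar
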