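import Mathlib
import Pool.Agent.Helper947.Zar.Defs

namespace Pool.Agent.Helper947.Zar

lemma nonempty_completion_equiv {A B : Type} [CommRing A] [CommRing B] [Algebra A B] (J : Ideal A)
    (b : ℕ → Ideal B) (s : ℕ)
    (g1 : ∀ n, (b (n + s)).comap (algebraMap A B) ≤ J ^ n)
    (g2 : ∀ n, J ^ n ≤ (b n).comap (algebraMap A B))
    (g3 : ∀ n (f : B), ∃ a : A, f - algebraMap A B a ∈ b n)
    (g4 : ∀ f : B, (∀ n, f ∈ b n) → f = 0)
    (hanti : Antitone b)
    (g5 : ∀ f : ℕ → B, (∀ n, f (n + 1) - f n ∈ b n) → ∃ L, ∀ n, f n - L ∈ b n) :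
    Nonempty (AdicCompletion J A ≃ₐ[A] B) := by
  classical
  choose ch hch using g3
  have key : ∀ n f a, f - algebraMap A B a ∈ b (n + s) →
      Ideal.Quotient.mk (J ^ n) (ch (n + s) f) = Ideal.Quotient.mk (J ^ n) a := by
    intro n f a h
    rw [Ideal.Quotient.eq]
    apply g1 n
    rw [Ideal.mem_comap, map_sub]
    have := Ideal.sub_mem _ h (hch (n + s) f)
    convert this using 1
    ring
  let π : ∀ n, B →ₐ[A] A ⧸ J ^ n := fun n =>
    { toFun := fun f => Ideal.Quotient.mk (J ^ n) (ch (n + s) f)
      map_one' := by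
        rw [key n 1 1 (by simp), map_one]
      map_zero' := by
        rw [key n 0 0 (by simp), map_zero]
      map_mul' := by
        intro f g
        rw [← map_mul]
        apply key
        rw [map_mul]
        have h1 := hch (n + s) f
        have h2 := hch (n + s) g
        have h3 : f * g - algebraMap A B (ch (n + s) f) * algebraMap A B (ch (n + s) g) =
          (f - algebraMap A B (ch (n + s) f)) * g +
            algebraMap A B (ch (n + s) f) * (g - algebraMap A B (ch (n + s) g)) := by ring
        rw [h3]
        exact Ideal.add_mem _ (Ideal.mul_mem_right _ _ h1) (Ideal.mul_mem_left _ _ h2)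
      map_add' := by
        intro f g
        rw [← map_add]
        apply key
        rw [map_add]
        have h3 : f + g - (algebraMap A B (ch (n + s) f) + algebraMap A B (ch (n + s) g)) =
          (f - algebraMap A B (ch (n + s) f)) + (g - algebraMap A B (ch (n + s) g)) := by ring
        rw [h3]
        exact Ideal.add_mem _ (hch _ f) (hch _ g)
      commutes' := by
        intro r
        rw [key n _ r (by simp)]
        rfl }
  have hπ : ∀ n f a, f - algebraMap A B a ∈ b (n + s) → π n f = Ideal.Quotient.mk (J ^ n) a :=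
    fun n f a h => key n f a h
  have hcompat : ∀ {m n : ℕ} (hle : m ≤ n),
      (Ideal.Quotient.factorₐ A (Ideal.pow_le_pow_right hle)).comp (π n) = π m := by
    intro m n hle
    ext f
    change Ideal.Quotient.mk (J ^ m) (ch (n + s) f) = π m f
    rw [hπ m f (ch (n + s) f)]
    exact hanti (by omega) (hch (n + s) f)
  let Φ : B →ₐ[A] AdicCompletion J A := AdicCompletion.liftAlgHom J π hcompat
  have hΦ : ∀ n f, AdicCompletion.evalₐ J n (Φ f) = π n f := fun n f =>
    AdicCompletion.evalₐ_liftAlgHom J π hcompat n f
  have hbij : Function.Bijective Φ := by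
    constructor
    · rw [injective_iff_map_eq_zero]
      intro f hf
      apply g4
      intro n
      have h1 := hΦ n f
      rw [hf, map_zero] at h1
      have h2 : ch (n + s) f ∈ J ^ n := Ideal.Quotient.eq_zero_iff_mem.mp h1.symm
      have h3 := g2 n h2
      rw [Ideal.mem_comap] at h3
      have h4 := hanti (show n ≤ n + s by omega) (hch (n + s) f)
      have := Ideal.add_mem _ h4 h3
      simpa using this
    · intro x
      obtain ⟨c, rfl⟩ := AdicCompletion.mk_surjective J A x
      let a : ℕ → A := fun n => c.val n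
      have ha : ∀ n, Ideal.Quotient.mk (J ^ n) (a n) =
          AdicCompletion.evalₐ J n (AdicCompletion.mk J A c) := fun n =>
        (AdicCompletion.evalₐ_mk J n c).symm
      have h2 : ∀ m n, m ≤ n → Ideal.Quotient.mk (J ^ m) (a n) = Ideal.Quotient.mk (J ^ m) (a m) := by
        intro m n hmn
        exact AdicCompletion.Ideal.mk_eq_mk J hmn c
      obtain ⟨L, hL⟩ := g5 (fun n => algebraMap A B (a n)) (by
        intro n
        rw [← map_sub]
        have h3 := h2 n (n + 1) (by omega)
        rw [Ideal.Quotient.eq] at h3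
        exact g2 n h3)
      refine ⟨L, ?_⟩
      apply AdicCompletion.ext_evalₐ
      intro n
      rw [hΦ, hπ n L (a (n + s)), h2 n (n + s) (by omega), ha]
      have := hL (n + s)
      rw [← neg_sub]
      exact Ideal.neg_mem_iff _ |>.mpr this
  exact ⟨(AlgEquiv.ofBijective Φ hbij).symm⟩

end Pool.Agent.Helper947.Zar
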