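import Mathlib

namespace Pool.Agent.Helper947.Zar

open IsLocalRing

/-- the data of the construction -/
structure Data (A : Type) [CommRing A] [IsLocalRing A] where
  x : A
  y : A
  h : A
  hh : h ∈ maximalIdeal A ^ 2
  indep : ∀ r s, r * x + s * y ∈ maximalIdeal A ^ 2 → r ∈ maximalIdeal A ∧ s ∈ maximalIdeal A
  gen : maximalIdeal A = Ideal.span {x, y}

namespace Data

variable {A : Type} [CommRing A] [IsLocalRing A] (D : Data A)

lemma hx : D.x ∈ maximalIdeal A := by
  rw [D.gen]; exact Ideal.subset_span (by simp)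

lemma hy : D.y ∈ maximalIdeal A := by
  rw [D.gen]; exact Ideal.subset_span (by simp)

lemma hh1 : D.h ∈ maximalIdeal A := Ideal.pow_le_self (by norm_num) D.hh

/-- the jet condition -/
def MM (α β : A) : Prop := ∃ r, α - r * D.x ∈ maximalIdeal A ^ 2 ∧ β - r * D.y ∈ maximalIdeal A ^ 2

lemma MM_of_sq {α β : A} (hα : α ∈ maximalIdeal A ^ 2) (hβ : β ∈ maximalIdeal A ^ 2) : D.MM α β :=
  ⟨0, by simpa using hα, by simpa using hβ⟩

lemma MM_add {α β α' β' : A} (h : D.MM α β) (h' : D.MM α' β') : D.MM (α + α') (β + β') := by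
  obtain ⟨r, h1, h2⟩ := h
  obtain ⟨r', h1', h2'⟩ := h'
  refine ⟨r + r', ?_, ?_⟩
  · convert Ideal.add_mem _ h1 h1' using 1; ring
  · convert Ideal.add_mem _ h2 h2' using 1; ring

lemma MM_mul {α β : A} (c : A) (h : D.MM α β) : D.MM (c * α) (c * β) := by
  obtain ⟨r, h1, h2⟩ := h
  refine ⟨c * r, ?_, ?_⟩
  · convert Ideal.mul_mem_left _ c h1 using 1; ring
  · convert Ideal.mul_mem_left _ c h2 using 1; ring

lemma MM_mem {α β : A} (h : D.MM α β) : α ∈ maximalIdeal A ∧ β ∈ maximalIdeal A := by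
  obtain ⟨r, h1, h2⟩ := h
  constructor
  · have := Ideal.add_mem _ (Ideal.pow_le_self (by norm_num) h1)
      (Ideal.mul_mem_left _ r D.hx)
    simpa using this
  · have := Ideal.add_mem _ (Ideal.pow_le_self (by norm_num) h2)
      (Ideal.mul_mem_left _ r D.hy)
    simpa using this

/-- the ring `o` -/
def TT : Subalgebra A (Fin 3 → A) where
  carrier := {z | ∃ α β, D.MM α β ∧ z 0 = z 2 + D.h ^ 3 * α ∧ z 1 = z 2 + D.h ^ 2 * β}
  mul_mem' := by
    rintro z w ⟨α, β, hM, h0, h1⟩ ⟨α', β', hM', h0', h1'⟩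
    refine ⟨(z 2 * α' + w 2 * α) + D.h ^ 3 * α * α', (z 2 * β' + w 2 * β) + D.h ^ 2 * β * β', ?_, ?_, ?_⟩
    · apply D.MM_add
      · exact D.MM_add (D.MM_mul _ hM') (D.MM_mul _ hM)
      · apply D.MM_of_sq
        · have : D.h ^ 3 * α * α' = (D.h ^ 2 * α * α') * D.h := by ring
          rw [this]; exact Ideal.mul_mem_left _ _ D.hh
        · have : D.h ^ 2 * β * β' = (D.h * β * β') * D.h := by ring
          rw [this]; exact Ideal.mul_mem_left _ _ D.hh
    · simp only [Pi.mul_apply, h0, h0']; ring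
    · simp only [Pi.mul_apply, h1, h1']; ring
  add_mem' := by
    rintro z w ⟨α, β, hM, h0, h1⟩ ⟨α', β', hM', h0', h1'⟩
    refine ⟨α + α', β + β', D.MM_add hM hM', ?_, ?_⟩
    · simp only [Pi.add_apply, h0, h0']; ring
    · simp only [Pi.add_apply, h1, h1']; ring
  algebraMap_mem' := by
    intro r
    exact ⟨0, 0, D.MM_of_sq (Ideal.zero_mem _) (Ideal.zero_mem _), by simp, by simp⟩

lemma mem_TT (z : Fin 3 → A) : z ∈ D.TT ↔
    ∃ α β, D.MM α β ∧ z 0 = z 2 + D.h ^ 3 * α ∧ z 1 = z 2 + D.h ^ 2 * β := Iff.rfl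

lemma mk_mem (c α β : A) (h : D.MM α β) :
    (![c + D.h ^ 3 * α, c + D.h ^ 2 * β, c] : Fin 3 → A) ∈ D.TT :=
  ⟨α, β, h, by simp, by simp⟩

instance : Nontrivial D.TT := inferInstance

lemma isUnit_iff (z : D.TT) : IsUnit z ↔ IsUnit (z.1 2) := by
  constructor
  · intro h
    exact h.map ((Pi.evalRingHom (fun _ : Fin 3 => A) 2).comp D.TT.val.toRingHom)
  · intro h
    have : Module.Finite A (Fin 3 → A) := inferInstance
    have hint : Algebra.IsIntegral D.TT (Fin 3 → A) := by
      have h1 : Algebra.IsIntegral A (Fin 3 → A) := inferInstance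
      exact Algebra.IsIntegral.tower_top (R := A)
    have hloc : IsLocalHom (algebraMap D.TT (Fin 3 → A)) := by
      apply RingHom.IsIntegral.isLocalHom
      · exact hint.1
      · exact Subtype.val_injective
    have hz : IsUnit (algebraMap D.TT (Fin 3 → A) z) := by
      obtain ⟨α, β, hM, h0, h1⟩ := z.2
      rw [Pi.isUnit_iff]
      intro i
      have hnot : ∀ w, w - z.1 2 ∈ maximalIdeal A → IsUnit w := by
        intro w hw
        by_contra hcon
        have h2 : w ∈ maximalIdeal A := hcon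
        have h3 := Ideal.sub_mem _ h2 hw
        rw [sub_sub_cancel] at h3
        exact h3 h
      fin_cases i
      · apply hnot
        change z.1 0 - z.1 2 ∈ _
        rw [h0, add_sub_cancel_left]
        exact Ideal.mul_mem_left _ _ (D.MM_mem hM).1
      · apply hnot
        change z.1 1 - z.1 2 ∈ _
        rw [h1, add_sub_cancel_left]
        exact Ideal.mul_mem_left _ _ (D.MM_mem hM).2
      · exact h
    exact isUnit_of_map_unit (algebraMap D.TT (Fin 3 → A)) z hz

instance : IsLocalRing D.TT := by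
  apply IsLocalRing.of_nonunits_add
  intro a b ha hb
  rw [mem_nonunits_iff, isUnit_iff] at ha hb ⊢
  have : (a + b).1 2 = a.1 2 + b.1 2 := rfl
  rw [this]
  exact IsLocalRing.nonunits_add ha hb

lemma mem_maximalIdeal (z : D.TT) : z ∈ maximalIdeal D.TT ↔ z.1 2 ∈ maximalIdeal A := by
  rw [IsLocalRing.mem_maximalIdeal, IsLocalRing.mem_maximalIdeal, mem_nonunits_iff,
    mem_nonunits_iff, isUnit_iff]

end Data

end Pool.Agent.Helper947.Zar
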