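import Mathlib
import Pool.Agent.Helper947.Zar.Z2

namespace Pool.Agent.Helper947.Zar

open IsLocalRing MvPowerSeries

/-- the ring of formal power series -/
abbrev PP : Type := MvPowerSeries (Fin 2) ℚ

/-- power series of order at least `n` -/
def OO (n : ℕ) : Ideal PP where
  carrier := {f | ∀ x, Finsupp.degree x < n → coeff x f = 0}
  zero_mem' := by intro x _; simp
  add_mem' := by
    intro f g hf hg x hx
    rw [map_add, hf x hx, hg x hx, add_zero]
  smul_mem' := by
    intro c f hf x hx
    rw [smul_eq_mul, coeff_mul]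
    apply Finset.sum_eq_zero
    rintro ⟨a, b⟩ hab
    rw [Finset.HasAntidiagonal.mem_antidiagonal] at hab
    have : Finsupp.degree a + Finsupp.degree b = Finsupp.degree x := by
      rw [← map_add]; exact congrArg _ hab
    rw [hf b (by omega), mul_zero]

lemma mem_OO (n : ℕ) (f : PP) : f ∈ OO n ↔ ∀ x, Finsupp.degree x < n → coeff x f = 0 := Iff.rfl

lemma OO_mul {m n : ℕ} {f g : PP} (hf : f ∈ OO m) (hg : g ∈ OO n) : f * g ∈ OO (m + n) := by
  intro x hx
  rw [coeff_mul]
  apply Finset.sum_eq_zero
  rintro ⟨a, b⟩ hab
  rw [Finset.HasAntidiagonal.mem_antidiagonal] at hab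
  have : Finsupp.degree a + Finsupp.degree b = Finsupp.degree x := by
    rw [← map_add]; exact congrArg _ hab
  by_cases h : Finsupp.degree a < m
  · rw [hf a h, zero_mul]
  · rw [hg b (by omega), mul_zero]

lemma OO_anti : Antitone OO := by
  intro m n hmn f hf x hx
  exact hf x (by omega)

lemma OO_zero : OO 0 = ⊤ := by
  rw [eq_top_iff]
  intro f _ x hx
  exact absurd hx (by omega)

lemma X_mem (i : Fin 2) : (X i : PP) ∈ OO 1 := by
  intro x hx
  rw [coeff_X, if_neg]
  rintro rfl
  rw [Finsupp.degree_single] at hx
  omega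

lemma OO_succ {n : ℕ} {f : PP} (hf : f ∈ OO (n + 1)) :
    ∃ g ∈ OO n, ∃ k ∈ OO n, f = X 0 * g + X 1 * k := by
  classical
  let g : PP := fun m => coeff (m + Finsupp.single 0 1) f
  let k : PP := fun m => if m 0 = 0 then coeff (m + Finsupp.single 1 1) f else 0
  have hg : ∀ m, coeff m g = coeff (m + Finsupp.single 0 1) f := fun m => rfl
  have hk : ∀ m, coeff m k = if m 0 = 0 then coeff (m + Finsupp.single 1 1) f else 0 := fun m => rfl
  refine ⟨g, ?_, k, ?_, ?_⟩
  · intro m hm
    rw [hg]
    apply hf
    rw [map_add, Finsupp.degree_single]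
    omega
  · intro m hm
    rw [hk]
    split_ifs with h
    · apply hf
      rw [map_add, Finsupp.degree_single]
      omega
    · rfl
  · ext m
    rw [map_add, X, X, coeff_monomial_mul, coeff_monomial_mul, one_mul, one_mul, hg, hk]
    by_cases h0 : m 0 = 0
    · have hn : ¬ (Finsupp.single (0 : Fin 2) 1 ≤ m) := by
        intro h
        have := h 0
        rw [Finsupp.single_eq_same] at this
        omega
      rw [if_neg hn, zero_add]
      by_cases h1 : m 1 = 0
      · have hn1 : ¬ (Finsupp.single (1 : Fin 2) 1 ≤ m) := by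
          intro h
          have := h 1
          rw [Finsupp.single_eq_same] at this
          omega
        rw [if_neg hn1]
        apply hf
        have : m = 0 := by
          ext i
          fin_cases i
          · exact h0
          · exact h1
        rw [this, map_zero]
        omega
      · have hle : Finsupp.single (1 : Fin 2) 1 ≤ m := by
          rw [Finsupp.single_le_iff]
          omega
        rw [if_pos hle, if_pos]
        · rw [tsub_add_cancel_of_le hle]
        · simp [h0]
    · have hle : Finsupp.single (0 : Fin 2) 1 ≤ m := by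
        rw [Finsupp.single_le_iff]
        omega
      rw [if_pos hle, tsub_add_cancel_of_le hle]
      have : (m - Finsupp.single (1 : Fin 2) 1 : Fin 2 →₀ ℕ) 0 ≠ 0 := by
        simpa using h0
      rw [if_neg this]
      simp

lemma mem_maxP (f : PP) : f ∈ maximalIdeal PP ↔ f ∈ OO 1 := by
  rw [IsLocalRing.mem_maximalIdeal, mem_nonunits_iff, MvPowerSeries.isUnit_iff_constantCoeff,
    isUnit_iff_ne_zero, not_not, mem_OO]
  constructor
  · intro h x hx
    have : x = 0 := by
      have h0 : Finsupp.degree x = 0 := by omega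
      rwa [Finsupp.degree_eq_zero_iff] at h0
    rw [this]
    exact h
  · intro h
    exact h 0 (by simp)

lemma maxP_eq : maximalIdeal PP = OO 1 := by
  ext f; exact mem_maxP f

lemma maxP_pow (n : ℕ) : maximalIdeal PP ^ n = OO n := by
  induction n with
  | zero => rw [pow_zero, OO_zero, Ideal.one_eq_top]
  | succ n ih =>
    apply le_antisymm
    · rw [pow_succ, ih, maxP_eq, Ideal.mul_le]
      intro f hf g hg
      exact OO_mul hf hg
    · intro f hf
      obtain ⟨g, hg, k, hk, rfl⟩ := OO_succ hf
      rw [pow_succ', ih]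
      apply Ideal.add_mem
      · apply Ideal.mul_mem_mul _ hg
        rw [maxP_eq]; exact X_mem 0
      · apply Ideal.mul_mem_mul _ hk
        rw [maxP_eq]; exact X_mem 1

lemma maxP_span : maximalIdeal PP = Ideal.span {X 1, X 0} := by
  apply le_antisymm
  · rw [maxP_eq]
    intro f hf
    obtain ⟨g, hg, k, hk, rfl⟩ := OO_succ (n := 0) hf
    rw [Ideal.mem_span_pair]
    exact ⟨k, g, by ring⟩
  · rw [Ideal.span_le]
    rintro f hf
    rw [maxP_eq]
    rcases hf with rfl | rfl
    · exact X_mem 1
    · exact X_mem 0

lemma indepP (r s : PP) (h : r * X 1 + s * X 0 ∈ maximalIdeal PP ^ 2) :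
    r ∈ maximalIdeal PP ∧ s ∈ maximalIdeal PP := by
  classical
  rw [maxP_pow] at h
  have hz : ∀ t : PP, constantCoeff t = 0 → t ∈ maximalIdeal PP := by
    intro t ht
    rw [mem_maxP]
    intro x hx
    have : x = 0 := by
      have h0 : Finsupp.degree x = 0 := by omega
      rwa [Finsupp.degree_eq_zero_iff] at h0
    rw [this]
    exact ht
  constructor
  · apply hz
    have := h (Finsupp.single 1 1) (by rw [Finsupp.degree_single]; omega)
    rw [map_add, X, X, coeff_mul_monomial, coeff_mul_monomial, if_pos le_rfl, if_neg, tsub_self] at this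
    · simpa using this
    · rw [Finsupp.single_le_iff]; simp
  · apply hz
    have := h (Finsupp.single 0 1) (by rw [Finsupp.degree_single]; omega)
    rw [map_add, X, X, coeff_mul_monomial, coeff_mul_monomial, if_neg, if_pos le_rfl, tsub_self] at this
    · simpa using this
    · rw [Finsupp.single_le_iff]; simp

lemma hP_mem : (X 0 ^ 2 - X 1 * X 0 + X 1 ^ 3 : PP) ∈ maximalIdeal PP ^ 2 := by
  rw [maxP_pow]
  apply Ideal.add_mem
  · apply Ideal.sub_mem
    · rw [pow_two]; exact OO_mul (X_mem 0) (X_mem 0)
    · exact OO_mul (X_mem 1) (X_mem 0)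
  · have : (X 1 ^ 3 : PP) = X 1 * (X 1 * X 1) := by ring
    rw [this]
    exact Ideal.mul_mem_left _ _ (OO_mul (X_mem 1) (X_mem 1))

/-- the data over the power series ring -/
noncomputable def DP : Data PP where
  x := X 1
  y := X 0
  h := X 0 ^ 2 - X 1 * X 0 + X 1 ^ 3
  hh := hP_mem
  indep := indepP
  gen := maxP_span

lemma exists_factor : ∃ u v : PP, v ∈ maximalIdeal PP ∧ u * v = X 1 ∧ u + v = 1 := by
  have hc : IsAdicComplete (.span (.range X) : Ideal PP) PP := inferInstance
  have hle : (Ideal.span (Set.range X) : Ideal PP) ≤ maximalIdeal PP := by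
    rw [Ideal.span_le, maxP_eq]
    rintro _ ⟨i, rfl⟩
    exact X_mem i
  have hH : HenselianRing PP (.span (.range X) : Ideal PP) := inferInstance
  let f : Polynomial PP := Polynomial.X ^ 2 - Polynomial.X + Polynomial.C (X 1)
  have hmon : f.Monic := by
    have : f = Polynomial.X ^ 2 + (- Polynomial.X + Polynomial.C (X 1)) := by ring
    rw [this]
    apply Polynomial.monic_X_pow_add
    compute_degree!
  have hder : Polynomial.derivative f = 2 * Polynomial.X - 1 := by
    simp [f]
    exact one_add_one_eq_two
  obtain ⟨a, ha, ha1⟩ := hH.is_henselian f hmon 1 (by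
      simp only [f, Polynomial.eval_add, Polynomial.eval_sub, Polynomial.eval_pow,
        Polynomial.eval_X, Polynomial.eval_C, one_pow, sub_self, zero_add]
      exact Ideal.subset_span ⟨1, rfl⟩) (by
      rw [hder]
      have h2 : (2 : PP) - 1 = 1 := by norm_num
      simp only [Polynomial.eval_sub, Polynomial.eval_mul, Polynomial.eval_ofNat,
        Polynomial.eval_X, Polynomial.eval_one, mul_one, h2, map_one, isUnit_one])
  refine ⟨a, 1 - a, ?_, ?_, by ring⟩
  · have := hle ha1
    rw [← neg_sub]
    exact (Ideal.neg_mem_iff _).mpr this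
  · have h1 : a ^ 2 - a + X 1 = 0 := by
      have := ha
      simpa [Polynomial.IsRoot, f] using this
    linear_combination -h1

end Pool.Agent.Helper947.Zar
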