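import Mathlib
import Pool.Agent.Helper947.Zar.Z7

namespace Pool.Agent.Helper947.Zar

open IsLocalRing MvPolynomial

/-- the polynomial ring -/
abbrev SS : Type := MvPolynomial (Fin 2) ℚ

/-- the ideal of the origin -/
noncomputable abbrev pp : Ideal SS := MvPolynomial.idealOfVars (Fin 2) ℚ

lemma mem_pp (f : SS) : f ∈ pp ↔ constantCoeff f = 0 := by
  have h := MvPolynomial.mem_pow_idealOfVars_iff' 1 f
  rw [pow_one] at h
  rw [h]
  constructor
  · intro h
    exact h 0 (by simp)
  · intro h x hx
    have : x = 0 := by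
      have h0 : Finsupp.degree x = 0 := by omega
      rwa [Finsupp.degree_eq_zero_iff] at h0
    rw [this]
    exact h

instance pp_max : pp.IsMaximal := by
  have h1 : pp = RingHom.ker (constantCoeff : SS →+* ℚ) := by
    ext f
    rw [mem_pp, RingHom.mem_ker]
  rw [h1]
  apply RingHom.ker_isMaximal_of_surjective
  intro q
  exact ⟨C q, by simp⟩

instance pp_prime : pp.IsPrime := pp_max.isPrime

/-- the local ring of the plane at the origin -/
abbrev RR : Type := Localization.AtPrime pp

/-- the map to power series -/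
noncomputable def io : RR →+* PP :=
  IsLocalization.lift (M := pp.primeCompl) (g := (MvPolynomial.coeToMvPowerSeries.ringHom : SS →+* PP)) (by
    rintro ⟨y, hy⟩
    rw [MvPowerSeries.isUnit_iff_constantCoeff, isUnit_iff_ne_zero]
    intro h0
    apply hy
    rw [SetLike.mem_coe, mem_pp]
    exact h0)

lemma io_algebraMap (f : SS) : io (algebraMap SS RR f) = (f : PP) := by
  rw [io, IsLocalization.lift_eq]
  rfl

noncomputable instance algRP : Algebra RR PP := io.toAlgebra

lemma algebraMap_RP : algebraMap RR PP = io := rfl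

lemma coe_mem_OO (n : ℕ) (f : SS) : (f : PP) ∈ OO n ↔ f ∈ pp ^ n := by
  rw [MvPolynomial.mem_pow_idealOfVars_iff', mem_OO]
  simp only [MvPolynomial.coeff_coe]

lemma maxR_eq : maximalIdeal RR = Ideal.map (algebraMap SS RR) pp :=
  (Localization.AtPrime.map_eq_maximalIdeal (I := pp)).symm

lemma comap_OO (n : ℕ) : (OO n).comap io = maximalIdeal RR ^ n := by
  apply le_antisymm
  · intro r hr
    obtain ⟨⟨a, s⟩, has⟩ := IsLocalization.surj pp.primeCompl r
    have hs : IsUnit (algebraMap SS RR s) := IsLocalization.map_units RR s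
    rw [Ideal.mem_comap] at hr
    have h1 : (a : PP) ∈ OO n := by
      rw [← io_algebraMap, ← has, map_mul]
      exact Ideal.mul_mem_right _ _ hr
    rw [coe_mem_OO] at h1
    have h2 : algebraMap SS RR a ∈ maximalIdeal RR ^ n := by
      rw [maxR_eq, ← Ideal.map_pow]
      exact Ideal.mem_map_of_mem _ h1
    obtain ⟨t, ht⟩ := hs.exists_right_inv
    have h3 : r = algebraMap SS RR a * t := by
      rw [← has, mul_assoc, ht, mul_one]
    rw [h3]
    exact Ideal.mul_mem_right _ _ h2
  · rw [maxR_eq, ← Ideal.map_pow, Ideal.map_le_iff_le_comap]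
    intro f hf
    rw [Ideal.mem_comap, Ideal.mem_comap, io_algebraMap, coe_mem_OO]
    exact hf

lemma density (n : ℕ) (f : PP) : ∃ a : RR, f - io a ∈ OO n := by
  refine ⟨algebraMap SS RR (MvPowerSeries.truncTotal n f), ?_⟩
  rw [io_algebraMap]
  intro x hx
  rw [map_sub, MvPolynomial.coeff_coe, MvPowerSeries.coeff_truncTotal _ hx, sub_self]

lemma io_injective : Function.Injective io := by
  rw [injective_iff_map_eq_zero]
  intro r hr
  obtain ⟨⟨a, s⟩, has⟩ := IsLocalization.surj pp.primeCompl r
  have hs : IsUnit (algebraMap SS RR s) := IsLocalization.map_units RR s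
  have h1 : (a : PP) = 0 := by
    rw [← io_algebraMap, ← has, map_mul, hr, zero_mul]
  have h2 : a = 0 := by
    exact MvPolynomial.coe_injective _ _ (by rw [h1, MvPolynomial.coe_zero])
  rw [h2, map_zero] at has
  exact (hs.mul_left_eq_zero).mp has

/-- the coordinates -/
noncomputable abbrev xR : RR := algebraMap SS RR (X 1)
/-- the coordinates -/
noncomputable abbrev yR : RR := algebraMap SS RR (X 0)

lemma io_x : io xR = MvPowerSeries.X 1 := by rw [io_algebraMap]; simp
lemma io_y : io yR = MvPowerSeries.X 0 := by rw [io_algebraMap]; simp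

lemma mem_maxR_pow (n : ℕ) (r : RR) : r ∈ maximalIdeal RR ^ n ↔ io r ∈ maximalIdeal PP ^ n := by
  rw [maxP_pow, ← comap_OO, Ideal.mem_comap]

lemma mem_maxR (r : RR) : r ∈ maximalIdeal RR ↔ io r ∈ maximalIdeal PP := by
  have := mem_maxR_pow 1 r
  rwa [pow_one, pow_one] at this

lemma maxR_span : maximalIdeal RR = Ideal.span {xR, yR} := by
  have h1 : (Set.range (X : Fin 2 → SS)) = {X 1, X 0} := by
    ext f
    constructor
    · rintro ⟨i, rfl⟩
      fin_cases i
      · right; rfl
      · left; rfl
    · rintro (rfl | rfl)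
      · exact ⟨1, rfl⟩
      · exact ⟨0, rfl⟩
  rw [maxR_eq]
  change Ideal.map (algebraMap SS RR) (Ideal.span (Set.range X)) = _
  rw [h1, Ideal.map_span, Set.image_pair]

/-- the data over the local ring -/
noncomputable def DR : Data RR where
  x := xR
  y := yR
  h := yR ^ 2 - xR * yR + xR ^ 3
  hh := by
    rw [mem_maxR_pow, map_add, map_sub, map_pow, map_mul, map_pow, io_x, io_y]
    exact hP_mem
  indep := by
    intro r s h
    rw [mem_maxR_pow, map_add, map_mul, map_mul, io_x, io_y] at h
    rw [mem_maxR, mem_maxR]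
    exact indepP _ _ h
  gen := maxR_span

lemma io_h : io DR.h = DP.h := by
  change io (yR ^ 2 - xR * yR + xR ^ 3) = _
  rw [map_add, map_sub, map_pow, map_mul, map_pow, io_x, io_y]
  rfl

end Pool.Agent.Helper947.Zar
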