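import Mathlib
import Pool.Agent.Helper947.Zar.Defs
import Pool.Agent.Helper947.Zar.Z6

namespace Pool.Agent.Helper947.Zar

open IsLocalRing MvPolynomial

instance domP : IsDomain PP := NoZeroDivisors.to_isDomain _

lemma no_root (t : Polynomial ℚ) : t ^ 2 - Polynomial.X * t + Polynomial.X ^ 3 ≠ 0 := by
  intro h
  have h1 : (2 * t - Polynomial.X) ^ 2 = Polynomial.X ^ 2 - 4 * Polynomial.X ^ 3 := by
    linear_combination 4 * h
  have h2 : ((2 * t - Polynomial.X) ^ 2).natDegree = 2 * (2 * t - Polynomial.X).natDegree :=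
    Polynomial.natDegree_pow _ _
  have h3 : (Polynomial.X ^ 2 - 4 * Polynomial.X ^ 3 : Polynomial ℚ).natDegree = 3 := by
    compute_degree!
  rw [h1, h3] at h2
  omega

lemma h_irred : Irreducible (X 0 ^ 2 - X 1 * X 0 + X 1 ^ 3 : SS) := by
  have he := MulEquiv.irreducible_iff (MvPolynomial.finSuccEquiv ℚ 1) (x := (X 0 ^ 2 - X 1 * X 0 + X 1 ^ 3 : SS))
  rw [← he]
  have h1 : (X 1 : MvPolynomial (Fin 2) ℚ) = X (Fin.succ 0) := rfl
  rw [h1]
  rw [map_add, map_sub, map_pow, map_mul, map_pow, MvPolynomial.finSuccEquiv_X_zero,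
    MvPolynomial.finSuccEquiv_X_succ]
  have hmon : (Polynomial.X ^ 2 - Polynomial.C (X 0) * Polynomial.X + Polynomial.C (X 0) ^ 3 :
      Polynomial (MvPolynomial (Fin 1) ℚ)).Monic := by
    have h5 : (Polynomial.X ^ 2 - Polynomial.C (X 0) * Polynomial.X + Polynomial.C (X 0) ^ 3 :
      Polynomial (MvPolynomial (Fin 1) ℚ)) = Polynomial.X ^ 2 +
        (- (Polynomial.C (X 0 : MvPolynomial (Fin 1) ℚ) * Polynomial.X) + Polynomial.C (X 0) ^ 3) := by ring
    rw [h5]
    apply Polynomial.monic_X_pow_add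
    compute_degree!
  have hdeg : (Polynomial.X ^ 2 - Polynomial.C (X 0) * Polynomial.X + Polynomial.C (X 0) ^ 3 :
      Polynomial (MvPolynomial (Fin 1) ℚ)).natDegree = 2 := by
    compute_degree!
  rw [hmon.irreducible_iff_roots_eq_zero_of_degree_le_three (by rw [hdeg]) (by rw [hdeg]; omega)]
  rw [Multiset.eq_zero_iff_forall_notMem]
  intro t ht
  rw [Polynomial.mem_roots hmon.ne_zero, Polynomial.IsRoot] at ht
  simp only [Polynomial.eval_add, Polynomial.eval_sub, Polynomial.eval_pow, Polynomial.eval_X,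
    Polynomial.eval_mul, Polynomial.eval_C] at ht
  have h2 := congrArg (MvPolynomial.aeval (fun _ : Fin 1 => (Polynomial.X : Polynomial ℚ))) ht
  simp only [map_add, map_sub, map_mul, map_pow, MvPolynomial.aeval_X, map_zero] at h2
  exact no_root _ h2

lemma h_prime : Prime DR.h := by
  have h1 : Prime (X 0 ^ 2 - X 1 * X 0 + X 1 ^ 3 : SS) := h_irred.prime
  have h2 : DR.h = algebraMap SS RR (X 0 ^ 2 - X 1 * X 0 + X 1 ^ 3) := by
    rw [map_add, map_sub, map_pow, map_mul, map_pow]
    rfl
  have hne : DR.h ≠ 0 := by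
    rw [h2, Ne, map_eq_zero_iff _ (IsLocalization.injective RR pp.primeCompl_le_nonZeroDivisors)]
    exact h1.ne_zero
  rw [← Ideal.span_singleton_prime hne, h2, ← Set.image_singleton, ← Ideal.map_span]
  apply IsLocalization.isPrime_of_isPrime_disjoint pp.primeCompl
  · rw [Ideal.span_singleton_prime h1.ne_zero]
    exact h1
  · rw [Set.disjoint_left]
    intro f hf hf2
    apply hf
    have h3 : Ideal.span {(X 0 ^ 2 - X 1 * X 0 + X 1 ^ 3 : SS)} ≤ pp := by
      rw [Ideal.span_singleton_le_iff_mem, mem_pp]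
      simp
    exact h3 hf2

lemma DR_not_principal : ¬ Submodule.IsPrincipal (maximalIdeal RR) := by
  rintro ⟨t, ht⟩
  have hne : (1 : RR) ∉ maximalIdeal RR := by
    exact (Ideal.ne_top_iff_one _).mp (maximalIdeal.isMaximal RR).ne_top
  have htm : t ∈ maximalIdeal RR := by
    rw [ht]; exact Submodule.mem_span_singleton_self t
  have hx := DR.hx
  have hy := DR.hy
  rw [ht] at hx hy
  obtain ⟨a, ha⟩ := Submodule.mem_span_singleton.mp hx
  obtain ⟨b, hb⟩ := Submodule.mem_span_singleton.mp hy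
  rw [smul_eq_mul] at ha hb
  by_cases hbm : b ∈ maximalIdeal RR
  · have h1 : 0 * DR.x + 1 * DR.y ∈ maximalIdeal RR ^ 2 := by
      rw [zero_mul, zero_add, one_mul, ← hb, pow_two]
      exact Ideal.mul_mem_mul hbm htm
    exact hne (DR.indep _ _ h1).2
  · have hbu : IsUnit b := by
      by_contra hcon
      exact hbm hcon
    obtain ⟨c, hc⟩ := hbu.exists_right_inv
    have h1 : 1 * DR.x + (-(a * c)) * DR.y ∈ maximalIdeal RR ^ 2 := by
      have : 1 * DR.x + (-(a * c)) * DR.y = 0 := by
        rw [← ha, ← hb]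
        linear_combination (-(a * t)) * hc
      rw [this]
      exact Ideal.zero_mem _
    exact hne (DR.indep _ _ h1).1

lemma dim_R : ringKrullDim RR = 2 := by
  have h0 : IsRegularLocalRing RR := inferInstance
  have h1 := (IsRegularLocalRing.iff_finrank_cotangentSpace RR).mp h0
  have h2 : ¬ Module.finrank (ResidueField RR) (CotangentSpace RR) ≤ 1 := by
    rw [IsLocalRing.finrank_cotangentSpace_le_one_iff]
    exact DR_not_principal
  have h3 : (maximalIdeal RR).spanFinrank ≤ 2 := by
    rw [maxR_span]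
    refine le_trans (Submodule.spanFinrank_span_le_ncard_of_finite (by simp)) ?_
    refine le_trans (Set.ncard_insert_le _ _) ?_
    rw [Set.ncard_singleton]
  rw [IsLocalRing.spanFinrank_maximalIdeal_eq_finrank_cotangentSpace] at h3
  have h4 : Module.finrank (ResidueField RR) (CotangentSpace RR) = 2 := by omega
  rw [← h1, h4]
  rfl

end Pool.Agent.Helper947.Zar
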