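import Mathlib
import Pool.Agent.Helper947.Zar.Z2

namespace Pool.Agent.Helper947.Zar

open IsLocalRing

namespace Data

variable {A : Type} [CommRing A] [IsLocalRing A] (D : Data A)

lemma sat_key [IsDomain A] [UniqueFactorizationMonoid A] (hp : Prime D.h) (z w : Fin 3 → A)
    (hz : z ∈ D.TT) (hw : ∀ i j, z i - z j ∣ w i - w j) : w ∈ D.TT := by
  obtain ⟨α, β, hM, h0, h1⟩ := hz
  have hh0 : D.h ≠ 0 := hp.ne_zero
  obtain ⟨s, hs⟩ := hw 0 2
  obtain ⟨t, ht⟩ := hw 1 2
  obtain ⟨q, hq⟩ := hw 0 1
  rw [h0, add_sub_cancel_left] at hs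
  rw [h1, add_sub_cancel_left] at ht
  rw [h0, h1] at hq
  refine ⟨α * s, β * t, ?_, by linear_combination hs, by linear_combination ht⟩
  -- relation between `s` and `t`
  have hrel : (D.h * α - β) * (q - s) = β * (s - t) := by
    have h2 : w 0 - w 1 = D.h ^ 3 * α * s - D.h ^ 2 * β * t := by linear_combination hs - ht
    rw [hq] at h2
    have h3 : D.h ^ 2 * ((D.h * α - β) * (q - s) - β * (s - t)) = 0 := by linear_combination h2
    rcases mul_eq_zero.mp h3 with h4 | h4
    · exact absurd h4 (pow_ne_zero _ hh0)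
    · exact sub_eq_zero.mp h4
  by_cases hβ : β = 0
  · have := D.MM_mul s hM
    rw [hβ] at this ⊢
    simpa [mul_comm] using this
  obtain ⟨b, a, g, hco, hgb, hga⟩ := UniqueFactorizationMonoid.exists_reduced_factors β hβ (D.h * α)
  have hg0 : g ≠ 0 := by
    rintro rfl
    rw [zero_mul] at hgb
    exact hβ hgb.symm
  have hdvd : (a - b) ∣ b * (s - t) := by
    refine ⟨q - s, ?_⟩
    apply mul_left_cancel₀ hg0
    rw [← hgb, ← hga] at hrel
    linear_combination -hrel
  have hco' : IsRelPrime (a - b) b := by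
    intro d hd1 hd2
    apply hco hd2
    have := dvd_add hd1 hd2
    simpa using this
  obtain ⟨p, hp'⟩ := hco'.dvd_of_dvd_mul_left hdvd
  have hN : β * (a - b) ∈ maximalIdeal A ^ 2 := by
    rcases hp.dvd_or_dvd (show D.h ∣ g * a from ⟨α, hga⟩) with h5 | h5
    · obtain ⟨g', hg'⟩ := h5
      have : β * (a - b) = (g' * b * (a - b)) * D.h := by
        rw [← hgb, hg']; ring
      rw [this]
      exact Ideal.mul_mem_left _ _ D.hh
    · obtain ⟨a', ha'⟩ := h5
      have hα : α = g * a' := by
        apply mul_left_cancel₀ hh0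
        rw [← hga, ha']; ring
      have hβm : β ∈ maximalIdeal A := (D.MM_mem hM).2
      have h6 : β * b ∈ maximalIdeal A ^ 2 := by
        by_cases hb : b ∈ maximalIdeal A
        · rw [pow_two]
          exact Ideal.mul_mem_mul hβm hb
        · have hbu : IsUnit b := by
            by_contra hcon
            exact hb hcon
          obtain ⟨c, hc⟩ := hbu.exists_right_inv
          obtain ⟨r, hr1, hr2⟩ := hM
          have h7 : r * D.x + (-(c * a' * r)) * D.y ∈ maximalIdeal A ^ 2 := by
            have h8 : r * D.x + (-(c * a' * r)) * D.y =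
                (c * a') * (β - r * D.y) - (α - r * D.x) := by
              rw [hα, ← hgb]
              linear_combination (-(g * a')) * hc
            rw [h8]
            exact Ideal.sub_mem _ (Ideal.mul_mem_left _ _ hr2) hr1
          have h9 := (D.indep _ _ h7).1
          have h10 : β ∈ maximalIdeal A ^ 2 := by
            have h11 : r * D.y ∈ maximalIdeal A ^ 2 := by
              rw [pow_two]
              exact Ideal.mul_mem_mul h9 D.hy
            have := Ideal.add_mem _ hr2 h11
            simpa using this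
          exact Ideal.mul_mem_right _ _ h10
      have h12 : β * (a - b) = (β * a') * D.h - β * b := by
        rw [ha']; ring
      rw [h12]
      exact Ideal.sub_mem _ (Ideal.mul_mem_left _ _ D.hh) h6
  have h13 : β * t = s * β - p * (β * (a - b)) := by linear_combination (-β) * hp'
  have h14 : α * s = s * α + 0 := by ring
  rw [h13, h14, sub_eq_add_neg]
  apply D.MM_add (D.MM_mul s hM)
  exact D.MM_of_sq (Ideal.zero_mem _) ((Ideal.neg_mem_iff _).mpr (Ideal.mul_mem_left _ _ hN))

/-- the obstruction in the completion -/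
lemma not_mem_TT [IsDomain A] (hh0 : D.h ≠ 0) :
    (![D.h ^ 3 * D.x, D.h ^ 3 * D.x, 0] : Fin 3 → A) ∉ D.TT := by
  rintro ⟨α, β, ⟨r, hr1, hr2⟩, h0, h1⟩
  have h0' : D.h ^ 3 * D.x = 0 + D.h ^ 3 * α := h0
  have h1' : D.h ^ 3 * D.x = 0 + D.h ^ 2 * β := h1
  have hα : α = D.x := by
    apply mul_left_cancel₀ (pow_ne_zero 3 hh0)
    linear_combination -h0'
  have hβ : β = D.h * D.x := by
    apply mul_left_cancel₀ (pow_ne_zero 2 hh0)
    linear_combination -h1'
  have h2 : (1 - r) * D.x + 0 * D.y ∈ maximalIdeal A ^ 2 := by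
    rw [hα] at hr1
    convert hr1 using 1; ring
  have h3 := (D.indep _ _ h2).1
  have h4 : 0 * D.x + r * D.y ∈ maximalIdeal A ^ 2 := by
    rw [hβ] at hr2
    have h5 : D.h * D.x ∈ maximalIdeal A ^ 2 := Ideal.mul_mem_right _ _ D.hh
    have := Ideal.sub_mem _ h5 hr2
    convert this using 1; ring
  have h6 := (D.indep _ _ h4).2
  have h7 := Ideal.add_mem _ h3 h6
  rw [sub_add_cancel] at h7
  exact (Ideal.ne_top_iff_one _).mp (maximalIdeal.isMaximal A).ne_top h7

lemma zeta_mem (h₂ : A) (hh2 : h₂ - D.y ∈ maximalIdeal A ^ 2) :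
    (![D.h ^ 3 * D.x, D.h ^ 2 * h₂, 0] : Fin 3 → A) ∈ D.TT := by
  refine ⟨D.x, h₂, ⟨1, ?_, ?_⟩, ?_, ?_⟩
  · simp
  · simpa using hh2
  · simp
  · simp

end Data

end Pool.Agent.Helper947.Zar
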