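import Mathlib
import Pool.Agent.Helper947.Zar.Z2

namespace Pool.Agent.Helper947.Zar

open IsLocalRing

namespace Data

variable {A : Type} [CommRing A] [IsLocalRing A] (D : Data A)

lemma x_ne_zero : D.x ≠ 0 := by
  intro h0
  have h1 : (1 : A) * D.x + 0 * D.y ∈ maximalIdeal A ^ 2 := by
    rw [h0]; simp
  exact (Ideal.ne_top_iff_one _).mp (maximalIdeal.isMaximal A).ne_top (D.indep _ _ h1).1

lemma h4_mem (w : Fin 3 → A) : (fun i => D.h ^ 4 * w i) ∈ D.TT := by
  refine ⟨D.h * (w 0 - w 2), D.h ^ 2 * (w 1 - w 2), ?_, by ring, by ring⟩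
  apply D.MM_of_sq
  · exact Ideal.mul_mem_right _ _ D.hh
  · rw [pow_two D.h, mul_assoc]
    exact Ideal.mul_mem_right _ _ D.hh

/-- the map to `K ^ 3` -/
noncomputable def toK : D.TT →+* (Fin 3 → FractionRing A) :=
  (RingHom.pi (fun i => (algebraMap A (FractionRing A)).comp (Pi.evalRingHom (fun _ : Fin 3 => A) i))).comp
    D.TT.val.toRingHom

lemma toK_apply (z : D.TT) (i : Fin 3) : D.toK z i = algebraMap A (FractionRing A) (z.1 i) := rfl

lemma toK_injective [IsDomain A] : Function.Injective D.toK := by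
  intro z w hzw
  apply Subtype.ext
  funext i
  have := congrFun hzw i
  rw [toK_apply, toK_apply] at this
  exact IsFractionRing.injective A (FractionRing A) this

lemma mem_nzd [IsDomain A] (hh0 : D.h ≠ 0) (z : D.TT) :
    z ∈ nonZeroDivisors D.TT ↔ ∀ i, z.1 i ≠ 0 := by
  constructor
  · intro hz i hi
    have h1 : (⟨fun j => D.h ^ 4 * (Pi.single i 1 : Fin 3 → A) j, D.h4_mem _⟩ : D.TT) * z = 0 := by
      apply Subtype.ext
      funext j
      change (D.h ^ 4 * (Pi.single i 1 : Fin 3 → A) j) * z.1 j = 0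
      by_cases hij : j = i
      · rw [hij, hi, mul_zero]
      · rw [Pi.single_eq_of_ne hij]; ring
    have h2 := (mem_nonZeroDivisors_iff.mp hz).2 _ h1
    have h3 := congrFun (congrArg Subtype.val h2) i
    have h4 : D.h ^ 4 * (Pi.single i 1 : Fin 3 → A) i = 0 := h3
    rw [Pi.single_eq_same, mul_one] at h4
    exact pow_ne_zero 4 hh0 h4
  · intro hz
    rw [mem_nonZeroDivisors_iff_right]
    intro w hw
    apply Subtype.ext
    funext i
    have h3 : w.1 i * z.1 i = 0 := congrFun (congrArg Subtype.val hw) i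
    exact (mul_eq_zero.mp h3).resolve_right (hz i)

/-- the algebra structure -/
noncomputable abbrev algK : Algebra D.TT (Fin 3 → FractionRing A) := D.toK.toAlgebra

lemma isFrac [IsDomain A] (hh0 : D.h ≠ 0) :
    @IsLocalization D.TT _ (nonZeroDivisors D.TT) (Fin 3 → FractionRing A) _ D.algK := by
  let _ := D.algK
  rw [isLocalization_iff]
  refine ⟨?_, ?_, ?_⟩
  · rintro ⟨z, hz⟩
    rw [Pi.isUnit_iff]
    intro i
    rw [isUnit_iff_ne_zero]
    change algebraMap A (FractionRing A) (z.1 i) ≠ 0
    rw [Ne, IsFractionRing.to_map_eq_zero_iff]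
    exact (D.mem_nzd hh0 z).mp hz i
  · intro f
    choose a b hab using fun i => IsLocalization.exists_mk'_eq (nonZeroDivisors A) (f i)
    let B : A := b 0 * b 1 * b 2
    let w : Fin 3 → A := ![a 0 * b 1 * b 2, a 1 * b 0 * b 2, a 2 * b 0 * b 1]
    have hb : ∀ i, (b i : A) ≠ 0 := fun i => nonZeroDivisors.coe_ne_zero (b i)
    have hfa : ∀ i, f i * algebraMap A _ (b i) = algebraMap A _ (a i) := by
      intro i
      rw [← hab i]
      exact IsLocalization.mk'_spec _ _ _
    refine ⟨(⟨fun i => D.h ^ 4 * w i, D.h4_mem w⟩,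
      ⟨⟨fun i => D.h ^ 4 * (fun _ => B : Fin 3 → A) i, D.h4_mem _⟩, ?_⟩), ?_⟩
    · rw [D.mem_nzd hh0]
      intro i
      change D.h ^ 4 * B ≠ 0
      exact mul_ne_zero (pow_ne_zero _ hh0) (mul_ne_zero (mul_ne_zero (hb 0) (hb 1)) (hb 2))
    · funext i
      change f i * algebraMap A (FractionRing A) (D.h ^ 4 * B) = algebraMap A (FractionRing A) (D.h ^ 4 * w i)
      have h0 := hfa 0
      have h1 := hfa 1
      have h2 := hfa 2
      fin_cases i
      · change f 0 * algebraMap A (FractionRing A) (D.h ^ 4 * B) = algebraMap A (FractionRing A) (D.h ^ 4 * (a 0 * b 1 * b 2))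
        simp only [B, map_mul, map_pow]
        linear_combination (algebraMap A (FractionRing A) D.h ^ 4 * algebraMap A (FractionRing A) (b 1) * algebraMap A (FractionRing A) (b 2)) * h0
      · change f 1 * algebraMap A (FractionRing A) (D.h ^ 4 * B) = algebraMap A (FractionRing A) (D.h ^ 4 * (a 1 * b 0 * b 2))
        simp only [B, map_mul, map_pow]
        linear_combination (algebraMap A (FractionRing A) D.h ^ 4 * algebraMap A (FractionRing A) (b 0) * algebraMap A (FractionRing A) (b 2)) * h1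
      · change f 2 * algebraMap A (FractionRing A) (D.h ^ 4 * B) = algebraMap A (FractionRing A) (D.h ^ 4 * (a 2 * b 0 * b 1))
        simp only [B, map_mul, map_pow]
        linear_combination (algebraMap A (FractionRing A) D.h ^ 4 * algebraMap A (FractionRing A) (b 0) * algebraMap A (FractionRing A) (b 1)) * h2
  · intro z w hzw
    exact ⟨1, by rw [D.toK_injective hzw]⟩

/-- the identification of the total ring of fractions -/
noncomputable def eqv [IsDomain A] (hh0 : D.h ≠ 0) : FractionRing D.TT ≃+* (Fin 3 → FractionRing A) :=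
  letI := D.algK
  haveI := D.isFrac hh0
  (IsLocalization.algEquiv (nonZeroDivisors D.TT) (FractionRing D.TT) (Fin 3 → FractionRing A)).toRingEquiv

lemma eqv_algebraMap [IsDomain A] (hh0 : D.h ≠ 0) (z : D.TT) (i : Fin 3) :
    D.eqv hh0 (algebraMap D.TT (FractionRing D.TT) z) i = algebraMap A (FractionRing A) (z.1 i) := by
  let _ := D.algK
  have := D.isFrac hh0
  have h1 : D.eqv hh0 (algebraMap D.TT (FractionRing D.TT) z) = algebraMap D.TT (Fin 3 → FractionRing A) z :=
    (IsLocalization.algEquiv (nonZeroDivisors D.TT) (FractionRing D.TT) (Fin 3 → FractionRing A)).commutes z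
  rw [h1]
  rfl

lemma eqv_algebraMap_base [IsDomain A] (hh0 : D.h ≠ 0) (r : A) (i : Fin 3) :
    D.eqv hh0 (algebraMap A (FractionRing D.TT) r) i = algebraMap A (FractionRing A) r := by
  rw [IsScalarTower.algebraMap_apply A D.TT (FractionRing D.TT), eqv_algebraMap]
  rfl

end Data

end Pool.Agent.Helper947.Zar
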