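import Mathlib
import Pool.Agent.Helper947.Zar.Defs
import Pool.Agent.Helper947.Zar.Z3
import Pool.Agent.Helper947.Zar.Z4

namespace Pool.Agent.Helper947.Zar

open IsLocalRing

namespace Data

variable {A : Type} [CommRing A] [IsLocalRing A] (D : Data A) [IsDomain A] (hh0 : D.h ≠ 0)

/-- the coordinate homomorphisms -/
noncomputable def chi (i : Fin 3) : FractionRing D.TT →ₐ[A] FractionRing A where
  toRingHom := (Pi.evalRingHom (fun _ : Fin 3 => FractionRing A) i).comp (D.eqv hh0).toRingHom
  commutes' := fun r => D.eqv_algebraMap_base hh0 r i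

lemma chi_apply (i : Fin 3) (η : FractionRing D.TT) : D.chi hh0 i η = D.eqv hh0 η i := rfl

/-- the coordinate homomorphisms to the algebraic closure -/
noncomputable def psi (i : Fin 3) : FractionRing D.TT →ₐ[A] Om A :=
  (IsScalarTower.toAlgHom A (FractionRing A) (Om A)).comp (D.chi hh0 i)

lemma psi_apply (i : Fin 3) (η : FractionRing D.TT) :
    D.psi hh0 i η = algebraMap (FractionRing A) (Om A) (D.eqv hh0 η i) := rfl

omit [IsDomain A] in
lemma isIntegral_TT : Algebra.IsIntegral A D.TT := by
  constructor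
  intro z
  have h1 : IsIntegral A (z.1 : Fin 3 → A) := Algebra.IsIntegral.isIntegral _
  have h2 : Function.Injective D.TT.val := Subtype.val_injective
  exact (isIntegral_algHom_iff D.TT.val h2).mp h1

lemma isIntegral_of (η : FractionRing D.TT) (hη : IsIntegral D.TT η) : IsIntegral A η := by
  have := D.isIntegral_TT
  exact isIntegral_trans (R := A) η hη

lemma isSat_self [UniqueFactorizationMonoid A] (hp : Prime D.h) :
    IsSat A D.TT (self D.TT) := by
  rintro η _ hη ⟨z, rfl⟩ hdom
  have hh0 := hp.ne_zero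
  have hw : ∀ i, ∃ w : A, algebraMap A (FractionRing A) w = D.eqv hh0 η i := by
    intro i
    have h1 : IsIntegral A (D.chi hh0 i η) := (D.isIntegral_of η hη).map (D.chi hh0 i)
    exact IsIntegrallyClosed.isIntegral_iff.mp h1
  choose w hw using hw
  have hK : Function.Injective (algebraMap (FractionRing A) (Om A)) := (algebraMap (FractionRing A) (Om A)).injective
  have hAK : Function.Injective (algebraMap A (FractionRing A)) := IsFractionRing.injective A (FractionRing A)
  have hdvd : ∀ i j, z.1 i - z.1 j ∣ w i - w j := by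
    intro i j
    have h2 := hdom (D.psi hh0 i) (D.psi hh0 j)
    simp only [psi_apply, eqv_algebraMap] at h2
    rw [← hw i, ← hw j] at h2
    by_cases hz : z.1 i = z.1 j
    · have h3 := h2.1 (by rw [hz])
      rw [hAK (hK h3), sub_self]
      exact dvd_zero _
    · have h3 := h2.2 (fun hcon => hz (hAK (hK hcon)))
      have h4 := h3.2
      have h5 : IsIntegral A ((algebraMap A (FractionRing A) (w i) - algebraMap A (FractionRing A) (w j)) /
          (algebraMap A (FractionRing A) (z.1 i) - algebraMap A (FractionRing A) (z.1 j))) := by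
        rw [← isIntegral_algebraMap_iff hK]
        rw [map_div₀, map_sub, map_sub]
        exact h4
      obtain ⟨q, hq⟩ := IsIntegrallyClosed.isIntegral_iff.mp h5
      refine ⟨q, ?_⟩
      apply hAK
      have h6 : algebraMap A (FractionRing A) (z.1 i) - algebraMap A (FractionRing A) (z.1 j) ≠ 0 := by
        rw [sub_ne_zero]
        exact fun hcon => hz (hAK hcon)
      rw [map_sub, map_mul, map_sub, hq]
      field_simp
  have hwT : w ∈ D.TT := D.sat_key hp z.1 w z.2 hdvd
  refine ⟨⟨w, hwT⟩, ?_⟩
  apply (D.eqv hh0).injective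
  funext i
  rw [eqv_algebraMap, ← hw i]

/-- the inclusion of `A ^ 3` -/
noncomputable def theta : (Fin 3 → A) →ₐ[A] FractionRing D.TT where
  toRingHom := (D.eqv hh0).symm.toRingHom.comp
    (RingHom.pi (fun i => (algebraMap A (FractionRing A)).comp (Pi.evalRingHom (fun _ : Fin 3 => A) i)))
  commutes' := by
    intro r
    apply (D.eqv hh0).injective
    funext i
    rw [eqv_algebraMap_base]
    change (D.eqv hh0) ((D.eqv hh0).symm _) i = _
    rw [RingEquiv.apply_symm_apply]
    rfl

lemma eqv_theta (w : Fin 3 → A) (i : Fin 3) :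
    D.eqv hh0 (D.theta hh0 w) i = algebraMap A (FractionRing A) (w i) := by
  change (D.eqv hh0) ((D.eqv hh0).symm _) i = _
  rw [RingEquiv.apply_symm_apply]
  rfl

lemma theta_mem_self (w : Fin 3 → A) : D.theta hh0 w ∈ self D.TT ↔ w ∈ D.TT := by
  have hAK : Function.Injective (algebraMap A (FractionRing A)) := IsFractionRing.injective A (FractionRing A)
  constructor
  · rintro ⟨z, hz⟩
    have : z.1 = w := by
      funext i
      apply hAK
      rw [← eqv_theta D hh0 w i, ← hz, eqv_algebraMap]
    rw [← this]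
    exact z.2
  · intro hw
    refine ⟨⟨w, hw⟩, ?_⟩
    apply (D.eqv hh0).injective
    funext i
    rw [eqv_theta, eqv_algebraMap]

lemma hom_apply {Ω : Type} [Field Ω] [Algebra A Ω] (ψ : (Fin 3 → A) →ₐ[A] Ω) :
    ∃ i, ∀ z, ψ z = algebraMap A Ω (z i) := by
  have h1 : ∀ z : Fin 3 → A, ψ z = algebraMap A Ω (z 0) * ψ (Pi.single 0 1) +
      algebraMap A Ω (z 1) * ψ (Pi.single 1 1) + algebraMap A Ω (z 2) * ψ (Pi.single 2 1) := by
    intro z
    have h2 : z = z 0 • (Pi.single 0 1 : Fin 3 → A) + z 1 • (Pi.single 1 1 : Fin 3 → A) +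
        z 2 • (Pi.single 2 1 : Fin 3 → A) := by
      funext i
      fin_cases i <;> simp
    conv_lhs => rw [h2]
    simp only [map_add, Algebra.smul_def, map_mul, AlgHom.commutes]
  have hone : ψ (Pi.single 0 1) + ψ (Pi.single 1 1) + ψ (Pi.single 2 1) = 1 := by
    have := h1 1
    simp only [map_one, Pi.one_apply, one_mul] at this
    exact this.symm
  have hort : ∀ i j : Fin 3, i ≠ j → ψ (Pi.single i 1) * ψ (Pi.single j 1) = 0 := by
    intro i j hij
    rw [← map_mul]
    have : (Pi.single i 1 : Fin 3 → A) * Pi.single j 1 = 0 := by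
      funext k
      by_cases hk : k = i
      · subst hk
        simp [Pi.single_eq_of_ne hij]
      · simp [Pi.single_eq_of_ne hk]
    rw [this, map_zero]
  by_cases h0 : ψ (Pi.single 0 1) = 0
  · by_cases h2 : ψ (Pi.single 1 1) = 0
    · refine ⟨2, fun z => ?_⟩
      rw [h0, h2, zero_add, zero_add] at hone
      rw [h1 z, h0, h2, hone]; ring
    · have h3 : ψ (Pi.single 2 1) = 0 := by
        have := hort 1 2 (by decide)
        exact (mul_eq_zero.mp this).resolve_left h2
      refine ⟨1, fun z => ?_⟩
      rw [h0, h3, zero_add, add_zero] at hone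
      rw [h1 z, h0, h3, hone]; ring
  · have h3 : ψ (Pi.single 2 1) = 0 := by
      have := hort 0 2 (by decide)
      exact (mul_eq_zero.mp this).resolve_left h0
    have h2 : ψ (Pi.single 1 1) = 0 := by
      have := hort 0 1 (by decide)
      exact (mul_eq_zero.mp this).resolve_left h0
    refine ⟨0, fun z => ?_⟩
    rw [h2, h3, add_zero, add_zero] at hone
    rw [h1 z, h2, h3, hone]; ring

lemma dominates (w z : Fin 3 → A) (h : ∀ i j, z i - z j ∣ w i - w j) :
    Dominates A D.TT (D.theta hh0 w) (D.theta hh0 z) := by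
  intro ψ φ
  obtain ⟨i, hi⟩ := hom_apply (ψ.comp (D.theta hh0))
  obtain ⟨j, hj⟩ := hom_apply (φ.comp (D.theta hh0))
  simp only [AlgHom.comp_apply] at hi hj
  rw [hi, hj, hi, hj]
  obtain ⟨q, hq⟩ := h i j
  have h1 : algebraMap A (Om A) (w i) - algebraMap A (Om A) (w j) =
      algebraMap A (Om A) q * (algebraMap A (Om A) (z i) - algebraMap A (Om A) (z j)) := by
    rw [← map_sub, ← map_sub, ← map_mul, hq, mul_comm]
  constructor
  · intro h2
    rw [h2, sub_self, mul_zero] at h1
    exact sub_eq_zero.mp h1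
  · intro h2
    have h3 : algebraMap A (Om A) (z i) - algebraMap A (Om A) (z j) ≠ 0 := sub_ne_zero.mpr h2
    rw [h1, mul_div_assoc, div_self h3, mul_one]
    constructor
    · rw [IsScalarTower.algebraMap_apply A (FractionRing A) (Om A)]
      exact IntermediateField.algebraMap_mem _ _
    · exact isIntegral_algebraMap

lemma theta_isIntegral (w : Fin 3 → A) : IsIntegral D.TT (D.theta hh0 w) := by
  have h1 : IsIntegral A w := Algebra.IsIntegral.isIntegral _
  have h2 : IsIntegral A (D.theta hh0 w) := h1.map (D.theta hh0)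
  exact h2.tower_top

include hh0 in
lemma self_lt_saturation (w z : Fin 3 → A) (h : ∀ i j, z i - z j ∣ w i - w j)
    (hz : z ∈ D.TT) (hw : w ∉ D.TT) : self D.TT < saturation A D.TT := by
  rw [lt_iff_le_and_ne]
  constructor
  · apply le_sInf
    rintro S ⟨hS, -, -⟩
    exact hS
  · intro heq
    apply hw
    rw [← D.theta_mem_self hh0, heq, saturation, Subring.mem_sInf]
    rintro S ⟨hS1, hS2, hS3⟩
    refine hS3 _ (D.theta hh0 z) (D.theta_isIntegral hh0 w) (hS1 ?_) (D.dominates hh0 w z h)
    rw [theta_mem_self]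
    exact hz

omit [IsDomain A] in
lemma saturation_eq_self [IsDomain A] [UniqueFactorizationMonoid A] (hp : Prime D.h) :
    saturation A D.TT = self D.TT := by
  apply le_antisymm
  · apply sInf_le
    refine ⟨le_refl _, ?_, D.isSat_self hp⟩
    rintro _ ⟨z, rfl⟩
    exact isIntegral_algebraMap
  · apply le_sInf
    rintro S ⟨hS, -, -⟩
    exact hS

end Data

end Pool.Agent.Helper947.Zar
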