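import Mathlib
import Pool.Agent.Helper947.Zar.Z1
import Pool.Agent.Helper947.Zar.Z10

namespace Pool.Agent.Helper947.Zar

open IsLocalRing

namespace Data

variable {A : Type} [CommRing A] [IsLocalRing A] (D : Data A)

/-- the filtration -/
def BB (n : ℕ) : Ideal D.TT where
  carrier := {z | z.1 2 ∈ maximalIdeal A ^ n ∧ ∃ α ∈ maximalIdeal A ^ n, ∃ β ∈ maximalIdeal A ^ n,
    z.1 0 = z.1 2 + D.h ^ 3 * α ∧ z.1 1 = z.1 2 + D.h ^ 2 * β}
  zero_mem' := ⟨Ideal.zero_mem _, 0, Ideal.zero_mem _, 0, Ideal.zero_mem _, by simp, by simp⟩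
  add_mem' := by
    rintro z w ⟨h2, α, hα, β, hβ, h0, h1⟩ ⟨h2', α', hα', β', hβ', h0', h1'⟩
    refine ⟨Ideal.add_mem _ h2 h2', α + α', Ideal.add_mem _ hα hα', β + β', Ideal.add_mem _ hβ hβ', ?_, ?_⟩
    · change z.1 0 + w.1 0 = z.1 2 + w.1 2 + _
      rw [h0, h0']; ring
    · change z.1 1 + w.1 1 = z.1 2 + w.1 2 + _
      rw [h1, h1']; ring
  smul_mem' := by
    rintro c z ⟨h2, α, hα, β, hβ, h0, h1⟩
    obtain ⟨α', β', hM, h0', h1'⟩ := c.2
    refine ⟨Ideal.mul_mem_left _ _ h2, c.1 2 * α + α' * z.1 2 + D.h ^ 3 * α' * α, ?_,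
      c.1 2 * β + β' * z.1 2 + D.h ^ 2 * β' * β, ?_, ?_, ?_⟩
    · exact Ideal.add_mem _ (Ideal.add_mem _ (Ideal.mul_mem_left _ _ hα) (Ideal.mul_mem_left _ _ h2))
        (Ideal.mul_mem_left _ _ hα)
    · exact Ideal.add_mem _ (Ideal.add_mem _ (Ideal.mul_mem_left _ _ hβ) (Ideal.mul_mem_left _ _ h2))
        (Ideal.mul_mem_left _ _ hβ)
    · change c.1 0 * z.1 0 = c.1 2 * z.1 2 + _
      rw [h0, h0']; ring
    · change c.1 1 * z.1 1 = c.1 2 * z.1 2 + _
      rw [h1, h1']; ring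

lemma mem_BB (n : ℕ) (z : D.TT) : z ∈ D.BB n ↔ z.1 2 ∈ maximalIdeal A ^ n ∧
    ∃ α ∈ maximalIdeal A ^ n, ∃ β ∈ maximalIdeal A ^ n,
    z.1 0 = z.1 2 + D.h ^ 3 * α ∧ z.1 1 = z.1 2 + D.h ^ 2 * β := Iff.rfl

lemma BB_anti : Antitone D.BB := by
  intro m n hmn z
  rintro ⟨h2, α, hα, β, hβ, h0, h1⟩
  have h := Ideal.pow_le_pow_right (I := maximalIdeal A) hmn
  exact ⟨h h2, α, h hα, β, h hβ, h0, h1⟩

lemma BB_zero (z : D.TT) : z ∈ D.BB 0 := by
  obtain ⟨α, β, hM, h0, h1⟩ := z.2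
  refine ⟨?_, α, ?_, β, ?_, h0, h1⟩ <;> simp

lemma BB_mul {m n : ℕ} {z w : D.TT} (hz : z ∈ D.BB m) (hw : w ∈ D.BB n) : z * w ∈ D.BB (m + n) := by
  obtain ⟨h2, α, hα, β, hβ, h0, h1⟩ := hz
  obtain ⟨h2', α', hα', β', hβ', h0', h1'⟩ := hw
  have key : ∀ {a b : A}, a ∈ maximalIdeal A ^ m → b ∈ maximalIdeal A ^ n →
      a * b ∈ maximalIdeal A ^ (m + n) := by
    intro a b ha hb
    rw [pow_add]
    exact Ideal.mul_mem_mul ha hb
  refine ⟨key h2 h2', z.1 2 * α' + α * w.1 2 + D.h ^ 3 * (α * α'), ?_,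
      z.1 2 * β' + β * w.1 2 + D.h ^ 2 * (β * β'), ?_, ?_, ?_⟩
  · exact Ideal.add_mem _ (Ideal.add_mem _ (key h2 hα') (key hα h2')) (Ideal.mul_mem_left _ _ (key hα hα'))
  · exact Ideal.add_mem _ (Ideal.add_mem _ (key h2 hβ') (key hβ h2')) (Ideal.mul_mem_left _ _ (key hβ hβ'))
  · change z.1 0 * w.1 0 = z.1 2 * w.1 2 + _
    rw [h0, h0']; ring
  · change z.1 1 * w.1 1 = z.1 2 * w.1 2 + _
    rw [h1, h1']; ring

lemma max_pow_le (n : ℕ) : maximalIdeal D.TT ^ n ≤ D.BB n := by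
  induction n with
  | zero => intro z _; exact D.BB_zero z
  | succ n ih =>
    rw [pow_succ, Ideal.mul_le]
    intro z hz w hw
    apply D.BB_mul (ih hz)
    rw [mem_maximalIdeal] at hw
    obtain ⟨α, β, hM, h0, h1⟩ := w.2
    refine ⟨by rwa [pow_one], α, ?_, β, ?_, h0, h1⟩
    · rw [pow_one]; exact (D.MM_mem hM).1
    · rw [pow_one]; exact (D.MM_mem hM).2

lemma algebraMap_mem_pow (n : ℕ) (c : A) (hc : c ∈ maximalIdeal A ^ n) :
    algebraMap A D.TT c ∈ maximalIdeal D.TT ^ n := by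
  have h1 : Ideal.map (algebraMap A D.TT) (maximalIdeal A) ≤ maximalIdeal D.TT := by
    rw [Ideal.map_le_iff_le_comap]
    intro a ha
    rw [Ideal.mem_comap, mem_maximalIdeal]
    exact ha
  have h2 := Ideal.pow_right_mono h1 n
  apply h2
  rw [← Ideal.map_pow]
  exact Ideal.mem_map_of_mem _ hc

lemma e1_mem (n : ℕ) (α : A) (hα : α ∈ maximalIdeal A ^ (n + 2)) :
    ∃ z ∈ maximalIdeal D.TT ^ n, z.1 0 = D.h ^ 3 * α ∧ z.1 1 = 0 ∧ z.1 2 = 0 := by
  rw [pow_add] at hα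
  refine Submodule.mul_induction_on hα ?_ ?_
  · intro a ha b hb
    refine ⟨algebraMap A D.TT a * ⟨![D.h ^ 3 * b, 0, 0], ⟨b, 0, D.MM_of_sq hb (Ideal.zero_mem _), by simp, by simp⟩⟩,
      Ideal.mul_mem_right _ _ (D.algebraMap_mem_pow n a ha), ?_, ?_, ?_⟩
    · change a * (D.h ^ 3 * b) = _
      ring
    · change a * 0 = 0
      ring
    · change a * 0 = 0
      ring
  · rintro a b ⟨z, hz, z0, z1, z2⟩ ⟨w, hw, w0, w1, w2⟩
    refine ⟨z + w, Ideal.add_mem _ hz hw, ?_, ?_, ?_⟩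
    · change z.1 0 + w.1 0 = _
      rw [z0, w0]; ring
    · change z.1 1 + w.1 1 = _
      rw [z1, w1]; ring
    · change z.1 2 + w.1 2 = _
      rw [z2, w2]; ring

lemma e2_mem (n : ℕ) (β : A) (hβ : β ∈ maximalIdeal A ^ (n + 2)) :
    ∃ z ∈ maximalIdeal D.TT ^ n, z.1 0 = 0 ∧ z.1 1 = D.h ^ 2 * β ∧ z.1 2 = 0 := by
  rw [pow_add] at hβ
  refine Submodule.mul_induction_on hβ ?_ ?_
  · intro a ha b hb
    refine ⟨algebraMap A D.TT a * ⟨![0, D.h ^ 2 * b, 0], ⟨0, b, D.MM_of_sq (Ideal.zero_mem _) hb, by simp, by simp⟩⟩,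
      Ideal.mul_mem_right _ _ (D.algebraMap_mem_pow n a ha), ?_, ?_, ?_⟩
    · change a * 0 = 0
      ring
    · change a * (D.h ^ 2 * b) = _
      ring
    · change a * 0 = 0
      ring
  · rintro a b ⟨z, hz, z0, z1, z2⟩ ⟨w, hw, w0, w1, w2⟩
    refine ⟨z + w, Ideal.add_mem _ hz hw, ?_, ?_, ?_⟩
    · change z.1 0 + w.1 0 = _
      rw [z0, w0]; ring
    · change z.1 1 + w.1 1 = _
      rw [z1, w1]; ring
    · change z.1 2 + w.1 2 = _
      rw [z2, w2]; ring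

lemma BB_le (n : ℕ) : D.BB (n + 2) ≤ maximalIdeal D.TT ^ n := by
  rintro z ⟨h2, α, hα, β, hβ, h0, h1⟩
  obtain ⟨u, hu, u0, u1, u2⟩ := D.e1_mem n α hα
  obtain ⟨v, hv, v0, v1, v2⟩ := D.e2_mem n β hβ
  have h3 := D.algebraMap_mem_pow n (z.1 2) (Ideal.pow_le_pow_right (by omega) h2)
  have h4 : z = algebraMap A D.TT (z.1 2) + u + v := by
    apply Subtype.ext
    funext i
    fin_cases i
    · change z.1 0 = z.1 2 + u.1 0 + v.1 0
      rw [u0, v0, h0]; ring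
    · change z.1 1 = z.1 2 + u.1 1 + v.1 1
      rw [u1, v1, h1]; ring
    · change z.1 2 = z.1 2 + u.1 2 + v.1 2
      rw [u2, v2]; ring
  rw [h4]
  exact Ideal.add_mem _ (Ideal.add_mem _ h3 hu) hv

end Data

/-- limits in the power series ring -/
lemma limitP (f : ℕ → PP) (hf : ∀ n, f (n + 1) - f n ∈ OO n) : ∃ L, ∀ n, f n - L ∈ OO n := by
  have h1 : ∀ n k, f (n + k) - f n ∈ OO n := by
    intro n k
    induction k with
    | zero => simp
    | succ k ih =>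
      have h2 := OO_anti (show n ≤ n + k by omega) (hf (n + k))
      have := Ideal.add_mem _ h2 ih
      rw [← add_assoc]
      convert this using 1
      ring
  let L : PP := fun x => MvPowerSeries.coeff x (f (Finsupp.degree x + 1))
  have hL : ∀ x, MvPowerSeries.coeff x L = MvPowerSeries.coeff x (f (Finsupp.degree x + 1)) := fun x => rfl
  refine ⟨L, fun n x hx => ?_⟩
  rw [map_sub, hL]
  obtain ⟨k, rfl⟩ : ∃ k, n = (Finsupp.degree x + 1) + k := ⟨n - (Finsupp.degree x + 1), by omega⟩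
  have := h1 (Finsupp.degree x + 1) k x (by omega)
  rw [map_sub] at this
  exact this

lemma hausP (f : PP) (hf : ∀ n, f ∈ OO n) : f = 0 := by
  ext x
  exact hf (Finsupp.degree x + 1) x (by omega)

/-- the power series ring is the completion of the local ring -/
lemma completion_RP : IsCompletion RR PP := by
  rw [IsCompletion, IsLocalRing.ringJacobson_eq_maximalIdeal]
  apply nonempty_completion_equiv (maximalIdeal RR) OO 0
  · intro n
    rw [add_zero, algebraMap_RP, comap_OO]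
  · intro n
    rw [algebraMap_RP, comap_OO]
  · intro n f
    exact density n f
  · exact hausP
  · exact OO_anti
  · exact limitP

lemma tau_mem (z : Fin 3 → RR) (hz : z ∈ DR.TT) : (fun i => io (z i)) ∈ DP.TT := by
  obtain ⟨α, β, ⟨r, hr1, hr2⟩, h0, h1⟩ := hz
  refine ⟨io α, io β, ⟨io r, ?_, ?_⟩, ?_, ?_⟩
  · rw [mem_maxR_pow, map_sub, map_mul] at hr1
    have : io DR.x = DP.x := io_x
    rw [this] at hr1
    exact hr1
  · rw [mem_maxR_pow, map_sub, map_mul] at hr2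
    have : io DR.y = DP.y := io_y
    rw [this] at hr2
    exact hr2
  · change io (z 0) = io (z 2) + _
    rw [h0, map_add, map_mul, map_pow, io_h]
  · change io (z 1) = io (z 2) + _
    rw [h1, map_add, map_mul, map_pow, io_h]

/-- the map from the ring to its completion -/
noncomputable def tau : DR.TT →+* DP.TT where
  toFun := fun z => ⟨fun i => io (z.1 i), tau_mem z.1 z.2⟩
  map_one' := by
    apply Subtype.ext
    funext i
    exact map_one io
  map_zero' := by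
    apply Subtype.ext
    funext i
    exact map_zero io
  map_add' := by
    intro z w
    apply Subtype.ext
    funext i
    exact map_add io _ _
  map_mul' := by
    intro z w
    apply Subtype.ext
    funext i
    exact map_mul io _ _

noncomputable instance algTT : Algebra DR.TT DP.TT := tau.toAlgebra

lemma algebraMap_TT : algebraMap DR.TT DP.TT = tau := rfl

lemma DP_h_ne : DP.h ≠ 0 := by
  rw [← io_h]
  intro h
  exact h_prime.ne_zero (io_injective (by rw [h, map_zero]))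

lemma comap_BB (n : ℕ) (z : DR.TT) : tau z ∈ DP.BB n ↔ z ∈ DR.BB n := by
  constructor
  · rintro ⟨h2, α, hα, β, hβ, h0, h1⟩
    obtain ⟨α', β', hM, h0', h1'⟩ := z.2
    have e2 : io (z.1 2) ∈ maximalIdeal PP ^ n := h2
    have e0 : io (z.1 0) = io (z.1 2) + DP.h ^ 3 * α := h0
    have e1 : io (z.1 1) = io (z.1 2) + DP.h ^ 2 * β := h1
    rw [h0', map_add, map_mul, map_pow, io_h] at e0
    rw [h1', map_add, map_mul, map_pow, io_h] at e1
    have hα' : io α' = α := mul_left_cancel₀ (pow_ne_zero 3 DP_h_ne) (add_left_cancel e0)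
    have hβ' : io β' = β := mul_left_cancel₀ (pow_ne_zero 2 DP_h_ne) (add_left_cancel e1)
    refine ⟨(mem_maxR_pow _ _).mpr e2, α', ?_, β', ?_, h0', h1'⟩
    · rw [mem_maxR_pow, hα']; exact hα
    · rw [mem_maxR_pow, hβ']; exact hβ
  · rintro ⟨h2, α, hα, β, hβ, h0, h1⟩
    refine ⟨(mem_maxR_pow _ _).mp h2, io α, (mem_maxR_pow _ _).mp hα, io β, (mem_maxR_pow _ _).mp hβ, ?_, ?_⟩
    · change io (z.1 0) = io (z.1 2) + _
      rw [h0, map_add, map_mul, map_pow, io_h]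
    · change io (z.1 1) = io (z.1 2) + _
      rw [h1, map_add, map_mul, map_pow, io_h]

lemma densityT (n : ℕ) (f : DP.TT) : ∃ a : DR.TT, f - tau a ∈ DP.BB n := by
  obtain ⟨α, β, ⟨r, hr1, hr2⟩, h0, h1⟩ := f.2
  obtain ⟨c', hc'⟩ := density (n + 2) (f.1 2)
  obtain ⟨α', hα'⟩ := density (n + 2) α
  obtain ⟨β', hβ'⟩ := density (n + 2) β
  obtain ⟨r', hr'⟩ := density (n + 2) r
  have hio : io DR.x = DP.x := io_x
  have hio' : io DR.y = DP.y := io_y
  rw [← maxP_pow] at hc' hα' hβ' hr'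
  have hle2 : maximalIdeal PP ^ (n + 2) ≤ maximalIdeal PP ^ 2 := Ideal.pow_le_pow_right (by omega)
  have hle : maximalIdeal PP ^ (n + 2) ≤ maximalIdeal PP ^ n := Ideal.pow_le_pow_right (by omega)
  have hM : DR.MM α' β' := by
    refine ⟨r', ?_, ?_⟩
    · rw [mem_maxR_pow, map_sub, map_mul, hio]
      have h3 : io α' - io r' * DP.x = (α - r * DP.x) - (α - io α') + (r - io r') * DP.x := by ring
      rw [h3]
      exact Ideal.add_mem _ (Ideal.sub_mem _ hr1 (hle2 hα')) (Ideal.mul_mem_right _ _ (hle2 hr'))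
    · rw [mem_maxR_pow, map_sub, map_mul, hio']
      have h3 : io β' - io r' * DP.y = (β - r * DP.y) - (β - io β') + (r - io r') * DP.y := by ring
      rw [h3]
      exact Ideal.add_mem _ (Ideal.sub_mem _ hr2 (hle2 hβ')) (Ideal.mul_mem_right _ _ (hle2 hr'))
  refine ⟨⟨![c' + DR.h ^ 3 * α', c' + DR.h ^ 2 * β', c'], DR.mk_mem c' α' β' hM⟩, ?_⟩
  refine ⟨?_, α - io α', hle hα', β - io β', hle hβ', ?_, ?_⟩
  · exact hle hc'
  · change f.1 0 - io (c' + DR.h ^ 3 * α') = f.1 2 - io c' + _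
    rw [map_add, map_mul, map_pow, io_h, h0]; ring
  · change f.1 1 - io (c' + DR.h ^ 2 * β') = f.1 2 - io c' + _
    rw [map_add, map_mul, map_pow, io_h, h1]; ring

lemma hausT (f : DP.TT) (hf : ∀ n, f ∈ DP.BB n) : f = 0 := by
  obtain ⟨α, β, hM, h0, h1⟩ := f.2
  have e : ∀ n, f.1 2 ∈ OO n ∧ α ∈ OO n ∧ β ∈ OO n := by
    intro n
    obtain ⟨h2, α', hα', β', hβ', h0', h1'⟩ := hf n
    rw [h0] at h0'
    rw [h1] at h1'
    have e1 : α = α' := mul_left_cancel₀ (pow_ne_zero 3 DP_h_ne) (add_left_cancel h0')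
    have e2 : β = β' := mul_left_cancel₀ (pow_ne_zero 2 DP_h_ne) (add_left_cancel h1')
    rw [maxP_pow] at h2 hα' hβ'
    rw [e1, e2]
    exact ⟨h2, hα', hβ'⟩
  have hc := hausP _ (fun n => (e n).1)
  have hα := hausP _ (fun n => (e n).2.1)
  have hβ := hausP _ (fun n => (e n).2.2)
  apply Subtype.ext
  funext i
  fin_cases i
  · change f.1 0 = 0
    rw [h0, hc, hα]; ring
  · change f.1 1 = 0
    rw [h1, hc, hβ]; ring
  · exact hc

lemma limitT (f : ℕ → DP.TT) (hf : ∀ n, f (n + 1) - f n ∈ DP.BB n) :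
    ∃ L, ∀ n, f n - L ∈ DP.BB n := by
  choose α β hM h0 h1 using fun n => (f n).2
  have e : ∀ n, (f (n + 1)).1 2 - (f n).1 2 ∈ OO n ∧ α (n + 1) - α n ∈ OO n ∧ β (n + 1) - β n ∈ OO n := by
    intro n
    obtain ⟨h2, α', hα', β', hβ', h0', h1'⟩ := hf n
    have g2 : (f (n + 1)).1 2 - (f n).1 2 ∈ maximalIdeal PP ^ n := h2
    have g0 : (f (n + 1)).1 0 - (f n).1 0 = (f (n + 1)).1 2 - (f n).1 2 + DP.h ^ 3 * α' := h0'
    have g1 : (f (n + 1)).1 1 - (f n).1 1 = (f (n + 1)).1 2 - (f n).1 2 + DP.h ^ 2 * β' := h1'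
    rw [h0 (n + 1), h0 n] at g0
    rw [h1 (n + 1), h1 n] at g1
    have e1 : α (n + 1) - α n = α' := by
      apply mul_left_cancel₀ (pow_ne_zero 3 DP_h_ne)
      linear_combination g0
    have e2 : β (n + 1) - β n = β' := by
      apply mul_left_cancel₀ (pow_ne_zero 2 DP_h_ne)
      linear_combination g1
    rw [maxP_pow] at g2 hα' hβ'
    rw [e1, e2]
    exact ⟨g2, hα', hβ'⟩
  obtain ⟨c, hc⟩ := limitP (fun n => (f n).1 2) (fun n => (e n).1)
  obtain ⟨a, ha⟩ := limitP α (fun n => (e n).2.1)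
  obtain ⟨b, hb⟩ := limitP β (fun n => (e n).2.2)
  have hMab : DP.MM a b := by
    have h3 : DP.MM (-(α 2 - a)) (-(β 2 - b)) := by
      apply DP.MM_of_sq
      · rw [maxP_pow]; exact (Ideal.neg_mem_iff _).mpr (ha 2)
      · rw [maxP_pow]; exact (Ideal.neg_mem_iff _).mpr (hb 2)
    have := DP.MM_add (hM 2) h3
    convert this using 1 <;> ring
  refine ⟨⟨![c + DP.h ^ 3 * a, c + DP.h ^ 2 * b, c], DP.mk_mem c a b hMab⟩, fun n => ?_⟩
  refine ⟨?_, α n - a, ?_, β n - b, ?_, ?_, ?_⟩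
  · rw [maxP_pow]; exact hc n
  · rw [maxP_pow]; exact ha n
  · rw [maxP_pow]; exact hb n
  · change (f n).1 0 - (c + DP.h ^ 3 * a) = (f n).1 2 - c + _
    rw [h0 n]; ring
  · change (f n).1 1 - (c + DP.h ^ 2 * b) = (f n).1 2 - c + _
    rw [h1 n]; ring

/-- criterion -/
lemma isCompletion_of {A B : Type} [CommRing A] [CommRing B] [Algebra A B] [IsLocalRing A]
    (b : ℕ → Ideal B) (s : ℕ)
    (g1 : ∀ n a, algebraMap A B a ∈ b (n + s) → a ∈ maximalIdeal A ^ n)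
    (g2 : ∀ n, ∀ a ∈ maximalIdeal A ^ n, algebraMap A B a ∈ b n)
    (g3 : ∀ n (f : B), ∃ a : A, f - algebraMap A B a ∈ b n)
    (g4 : ∀ f : B, (∀ n, f ∈ b n) → f = 0)
    (hanti : Antitone b)
    (g5 : ∀ f : ℕ → B, (∀ n, f (n + 1) - f n ∈ b n) → ∃ L, ∀ n, f n - L ∈ b n) :
    IsCompletion A B := by
  rw [IsCompletion, IsLocalRing.ringJacobson_eq_maximalIdeal]
  exact nonempty_completion_equiv (maximalIdeal A) b s (fun n a ha => g1 n a ha)
    (fun n a ha => g2 n a ha) g3 g4 hanti g5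

/-- the second completion statement -/
lemma completion_TT : IsCompletion DR.TT DP.TT := by
  refine isCompletion_of (A := DR.TT) (B := DP.TT) DP.BB 2 ?_ ?_ ?_ ?_ ?_ ?_
  · intro n z hz
    exact DR.BB_le n ((comap_BB (n + 2) z).mp hz)
  · intro n z hz
    exact (comap_BB n z).mpr (DR.max_pow_le n hz)
  · intro n f
    exact densityT n f
  · exact hausT
  · exact DP.BB_anti
  · exact limitT

end Pool.Agent.Helper947.Zar
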