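import Mathlib
import Pool.Agent.Helper947.Zar.Defs

namespace Pool.Agent.Helper947.Zar

/-- finiteness of the integral closure when the base is essentially of finite type over a field of
characteristic zero -/
lemma nagata_sub (k C L : Type) [Field k] [CharZero k] [CommRing C] [IsDomain C] [Algebra k C]
    (B : Subalgebra k C) [Algebra.FiniteType k B]
    (hB : ∀ c : C, ∃ a b : B, IsUnit (b : C) ∧ c * b = a) [Field L] [Algebra C L]
    [Algebra (FractionRing C) L] [IsScalarTower C (FractionRing C) L]
    [FiniteDimensional (FractionRing C) L] : Module.Finite C (integralClosure C L) := by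
  classical
  obtain ⟨s, g, ginj, gfin⟩ := exists_finite_inj_algHom_of_fg k B
  let M : Submonoid B := (IsUnit.submonoid C).comap (algebraMap B C)
  have hloc : IsLocalization M C := by
    rw [isLocalization_iff]
    refine ⟨fun y => y.2, fun z => ?_, fun {x y} hxy => ?_⟩
    · obtain ⟨a, b, hb, hab⟩ := hB z
      exact ⟨(a, ⟨b, hb⟩), hab⟩
    · refine ⟨1, ?_⟩
      rw [Subtype.val_injective hxy]
  let T := MvPolynomial (Fin s) k
  let algTB : Algebra T B := g.toRingHom.toAlgebra
  have finTB : Module.Finite T B := gfin
  let algTC : Algebra T C := ((algebraMap B C).comp (algebraMap T B)).toAlgebra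
  have towTBC : IsScalarTower T B C := IsScalarTower.of_algebraMap_eq (fun _ => rfl)
  let algTL : Algebra T L := ((algebraMap C L).comp (algebraMap T C)).toAlgebra
  have towTCL : IsScalarTower T C L := IsScalarTower.of_algebraMap_eq (fun _ => rfl)
  have hCL : Function.Injective (algebraMap C L) := by
    rw [IsScalarTower.algebraMap_eq C (FractionRing C) L]
    exact (algebraMap (FractionRing C) L).injective.comp (IsFractionRing.injective C (FractionRing C))
  have hTC : Function.Injective (algebraMap T C) := Subtype.val_injective.comp ginj
  have hTL : Function.Injective (algebraMap T L) := hCL.comp hTC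
  have ess1 : Algebra.EssFiniteType B C := Algebra.EssFiniteType.of_isLocalization C M
  have ess2 : Algebra.EssFiniteType C (FractionRing C) :=
    Algebra.EssFiniteType.of_isLocalization (FractionRing C) (nonZeroDivisors C)
  have ess3 : Algebra.EssFiniteType T C := Algebra.EssFiniteType.comp T B C
  have ess4 : Algebra.EssFiniteType C L := Algebra.EssFiniteType.comp C (FractionRing C) L
  have ess5 : Algebra.EssFiniteType T L := Algebra.EssFiniteType.comp T C L
  have alg1 : Algebra.IsAlgebraic T B := inferInstance
  have alg2 : Algebra.IsAlgebraic B C := IsLocalization.isAlgebraic C M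
  have alg3 : Algebra.IsAlgebraic T C := Algebra.IsAlgebraic.trans T B C
  have alg4 : Algebra.IsAlgebraic C L :=
    (IsFractionRing.comap_isAlgebraic_iff (A := C) (K := FractionRing C) (C := L)).mpr inferInstance
  have alg5 : Algebra.IsAlgebraic T L := Algebra.IsAlgebraic.trans T C L
  have faith : FaithfulSMul T L := (faithfulSMul_iff_algebraMap_injective T L).mpr hTL
  let _ := FractionRing.liftAlgebra T L
  have tow : IsScalarTower T (FractionRing T) L := FractionRing.isScalarTower_liftAlgebra T L
  have ess6 : Algebra.EssFiniteType (FractionRing T) L := Algebra.EssFiniteType.of_comp T (FractionRing T) L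
  have alg6 : Algebra.IsAlgebraic (FractionRing T) L :=
    (IsFractionRing.comap_isAlgebraic_iff (A := T) (K := FractionRing T) (C := L)).mp alg5
  have fin6 : Module.Finite (FractionRing T) L := Algebra.finite_of_essFiniteType_of_isAlgebraic
  have hchar : CharZero (FractionRing T) := inferInstance
  have fin7 : Module.Finite T (integralClosure T L) :=
    IsIntegralClosure.finite T (FractionRing T) L (integralClosure T L)
  obtain ⟨G, hG⟩ := fin7.fg_top
  -- images of the generators
  let G' : Set L := (fun z : integralClosure T L => (z : L)) '' (G : Set (integralClosure T L))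
  have hGspan : ∀ z : L, IsIntegral T z → z ∈ Submodule.span T G' := by
    intro z hz
    have h1 : (⟨z, hz⟩ : integralClosure T L) ∈ Submodule.span T (G : Set (integralClosure T L)) := by
      rw [hG]; trivial
    have h2 := Submodule.mem_map_of_mem (f := (integralClosure T L).val.toLinearMap) h1
    rw [Submodule.map_span] at h2
    exact h2
  have hfg : (Subalgebra.toSubmodule (integralClosure C L)).FG := by
    refine ⟨G.image (fun z : integralClosure T L => (z : L)), ?_⟩
    rw [Finset.coe_image]
    apply le_antisymm
    · rw [Submodule.span_le]
      rintro _ ⟨z, _, rfl⟩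
      have hz : IsIntegral T (z : L) := z.2
      have hz' : IsIntegral C (z : L) := hz.tower_top
      exact hz'
    · intro z hz
      have hz' : IsIntegral C z := hz
      obtain ⟨m, hm⟩ := IsIntegral.exists_multiple_integral_of_isLocalization M z hz'
      have hintTB : Algebra.IsIntegral T B := inferInstance
      have towTBL : IsScalarTower T B L := IsScalarTower.of_algebraMap_eq (fun _ => rfl)
      have hm' : IsIntegral T (m • z) := isIntegral_trans (R := T) (A := B) (m • z) hm
      have h3 := hGspan _ hm'
      have h4 : m • z ∈ Submodule.span C G' := by
        have : Submodule.span T G' ≤ (Submodule.span C G').restrictScalars T := by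
          rw [Submodule.span_le]
          exact Submodule.subset_span
        exact this h3
      obtain ⟨c, hc⟩ := m.2.exists_right_inv
      have h5 : z = c • (m • z) := by
        have h6 : m • z = (algebraMap B C m) • z := by
          rw [Submonoid.smul_def, algebraMap_smul]
        rw [h6, smul_smul, mul_comm, hc, one_smul]
      rw [h5]
      exact Submodule.smul_mem _ _ h4
  rw [Module.finite_def]
  exact (Submodule.fg_top _).mpr hfg

end Pool.Agent.Helper947.Zar
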