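import Mathlib
import Pool.Agent.Helper947.Zar.Defs
import Pool.Agent.Helper947.Zar.Z5
import Pool.Agent.Helper947.Zar.Z8
import Pool.Agent.Helper947.Zar.Z9

namespace Pool.Agent.Helper947.Zar

open IsLocalRing

lemma pseudo_R : IsPseudoGeometric RR := by
  refine ⟨inferInstance, ?_⟩
  intro p hp L _ _ _ _ _
  let φ : SS →ₐ[ℚ] (RR ⧸ p) := IsScalarTower.toAlgHom ℚ SS (RR ⧸ p)
  have hft : Algebra.FiniteType ℚ φ.range := Algebra.FiniteType.of_surjective φ.rangeRestrict
    φ.rangeRestrict_surjective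
  apply nagata_sub ℚ (RR ⧸ p) L φ.range
  intro c
  obtain ⟨r, rfl⟩ := Ideal.Quotient.mk_surjective c
  obtain ⟨⟨a, s⟩, has⟩ := IsLocalization.surj pp.primeCompl r
  have hs : IsUnit (algebraMap SS RR s) := IsLocalization.map_units RR s
  refine ⟨φ.rangeRestrict a, φ.rangeRestrict s, ?_, ?_⟩
  · exact hs.map (Ideal.Quotient.mk p)
  · change Ideal.Quotient.mk p r * Ideal.Quotient.mk p (algebraMap SS RR s) = Ideal.Quotient.mk p (algebraMap SS RR a)
    rw [← map_mul, has]

lemma pair_R : IsPair RR DR.TT where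
  noetherian := by
    have : IsNoetherian RR DR.TT := isNoetherian_submodule' (Subalgebra.toSubmodule DR.TT)
    exact isNoetherian_of_tower RR this
  semilocal := inferInstance
  reduced := by
    have h : IsReduced (Fin 3 → RR) := inferInstance
    exact isReduced_of_injective DR.TT.val Subtype.val_injective
  regular := inferInstance
  domain := inferInstance
  charZero := ⟨algebraMap ℚ RR⟩
  injective := by
    intro a b hab
    exact congrFun (congrArg Subtype.val hab) 0
  finite := by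
    have : IsNoetherian RR DR.TT := isNoetherian_submodule' (Subalgebra.toSubmodule DR.TT)
    infer_instance
  nonZeroDivisor := by
    intro r hr
    rw [DR.mem_nzd h_prime.ne_zero]
    intro i
    exact hr
  pseudoGeometric := pseudo_R

/-- the algebra structure of the completed ring over the base -/
noncomputable instance algRTP : Algebra RR DP.TT := ((algebraMap PP DP.TT).comp io).toAlgebra

instance tow1 : IsScalarTower RR PP DP.TT := IsScalarTower.of_algebraMap_eq (fun _ => rfl)

instance tow2 : IsScalarTower RR DR.TT DP.TT := IsScalarTower.of_algebraMap_eq (fun _ => rfl)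

lemma sat_R : saturation RR DR.TT = self DR.TT := DR.saturation_eq_self h_prime

lemma sat_P : self DP.TT < saturation PP DP.TT := by
  obtain ⟨u, v, hv, huv, hsum⟩ := exists_factor
  -- `h = (y - x u) (y - x v)`
  have hfac : DP.h = (DP.y - DP.x * u) * (DP.y - DP.x * v) := by
    change (MvPowerSeries.X 0 ^ 2 - MvPowerSeries.X 1 * MvPowerSeries.X 0 + MvPowerSeries.X 1 ^ 3 : PP) =
      (MvPowerSeries.X 0 - MvPowerSeries.X 1 * u) * (MvPowerSeries.X 0 - MvPowerSeries.X 1 * v)
    linear_combination (MvPowerSeries.X 1 * MvPowerSeries.X 0) * hsum - (MvPowerSeries.X 1) ^ 2 * huv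
  set h1 := DP.y - DP.x * u with hh1
  set h2 := DP.y - DP.x * v with hh2
  refine DP.self_lt_saturation DP_h_ne ![DP.h ^ 3 * DP.x, DP.h ^ 3 * DP.x, 0]
    ![DP.h ^ 3 * DP.x, DP.h ^ 2 * h2, 0] ?_ (DP.zeta_mem h2 ?_) (DP.not_mem_TT DP_h_ne)
  · intro i j
    fin_cases i <;> fin_cases j
    · simp
    · simp
    · simp
    · simp
    · simp
    · change DP.h ^ 2 * h2 - 0 ∣ DP.h ^ 3 * DP.x - 0
      refine ⟨h1 * DP.x, ?_⟩
      rw [sub_zero, sub_zero, pow_succ DP.h 2]
      nth_rewrite 2 [hfac]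
      ring
    · change 0 - DP.h ^ 3 * DP.x ∣ 0 - DP.h ^ 3 * DP.x
      exact dvd_rfl
    · change 0 - DP.h ^ 2 * h2 ∣ 0 - DP.h ^ 3 * DP.x
      refine ⟨h1 * DP.x, ?_⟩
      rw [pow_succ DP.h 2]
      nth_rewrite 2 [hfac]
      ring
    · simp
  · rw [hh2]
    have : DP.y - DP.x * v - DP.y = -(DP.x * v) := by ring
    rw [this, pow_two]
    exact (Ideal.neg_mem_iff _).mpr (Ideal.mul_mem_mul DP.hx hv)

end Pool.Agent.Helper947.Zar
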